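import Mathlib

/-!
# The complexification of a real closed field is algebraically closed

`K` is an ordered field which is real closed (`IsRealClosed K`).  The field
`K(i) = QuadraticAlgebra K (-1) 0` is algebraically closed.
-/

open Polynomial

namespace Pool.Agent.RealClosed

universe u

variable {K : Type u} [Field K] [LinearOrder K] [IsStrictOrderedRing K]

instance factNegOne : Fact (∀ r : K, r ^ 2 ≠ (-1 : K) + 0 * r) :=
  ⟨fun r h => by nlinarith [sq_nonneg r]⟩

/-- The field `K(i)`. -/
abbrev Cx (K : Type u) [Field K] : Type u := QuadraticAlgebra K (-1) 0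

theorem exists_sqrt [IsRealClosed K] {x : K} (hx : 0 ≤ x) : ∃ s : K, 0 ≤ s ∧ s * s = x := by
  obtain ⟨s, hs⟩ := IsRealClosed.nonneg_iff_isSquare.mp hx
  exact ⟨|s|, abs_nonneg s, by rw [abs_mul_abs_self, hs]⟩

theorem Cx.isSquare [IsRealClosed K] (z : Cx K) : ∃ w : Cx K, w * w = z := by
  obtain ⟨x, y⟩ := z
  obtain ⟨m, hm0, hm⟩ := exists_sqrt (x := x * x + y * y)
    (by nlinarith [mul_self_nonneg x, mul_self_nonneg y])
  have h1 : |x| ≤ m := by
    apply abs_le_of_sq_le_sq _ hm0
    nlinarith [mul_self_nonneg y]
  have h2 := abs_le.mp h1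
  obtain ⟨u, hu0, hu⟩ := exists_sqrt (x := (m + x) / 2) (by linarith)
  obtain ⟨v, hv0, hv⟩ := exists_sqrt (x := (m - x) / 2) (by linarith)
  have h3 : (2 * (u * v)) * (2 * (u * v)) = y * y := by
    have : (2 * (u * v)) * (2 * (u * v)) = 4 * ((u * u) * (v * v)) := by ring
    rw [this, hu, hv]
    field_simp
    linarith
  have h4 : (2 * (u * v) - y) * (2 * (u * v) + y) = 0 := by linear_combination h3
  rcases mul_eq_zero.mp h4 with h5 | h5
  · refine ⟨⟨u, v⟩, ?_⟩
    ext
    · simp; linear_combination hu - hv
    · simp; linear_combination h5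
  · refine ⟨⟨u, -v⟩, ?_⟩
    ext
    · simp; linear_combination hu - hv
    · simp; linear_combination -h5

/-- An intermediate field of odd degree over a real closed field is trivial. -/
theorem finrank_eq_one_of_odd [IsRealClosed K] {E : Type*} [Field E] [Algebra K E]
    [FiniteDimensional K E] (h : Odd (Module.finrank K E)) : Module.finrank K E = 1 := by
  obtain ⟨α, hα⟩ := Field.exists_primitive_element K E
  have hint : IsIntegral K α := Algebra.IsIntegral.isIntegral α
  have h1 : Module.finrank K E = (minpoly K α).natDegree := by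
    rw [← IntermediateField.adjoin.finrank hint, hα, IntermediateField.finrank_top']
  have hirr := minpoly.irreducible hint
  obtain ⟨r, hr⟩ := IsRealClosed.exists_isRoot_of_odd_natDegree (R := K) (f := minpoly K α)
    (by rw [← h1]; exact h)
  have h2 := Polynomial.degree_eq_one_of_irreducible_of_root hirr hr
  rw [h1]
  exact Polynomial.natDegree_eq_of_degree_eq_some h2

theorem card_gal_eq_two_pow [IsRealClosed K] {N : Type*} [Field N] [Algebra K N]
    [FiniteDimensional K N] [IsGalois K N] : ∃ m : ℕ, Module.finrank K N = 2 ^ m := by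
  have : Fact (Nat.Prime 2) := ⟨Nat.prime_two⟩
  have : Finite (N ≃ₐ[K] N) := inferInstance
  let P : Sylow 2 (N ≃ₐ[K] N) := default
  let E := IntermediateField.fixedField (P : Subgroup (N ≃ₐ[K] N))
  have h1 : Module.finrank E N = Nat.card (P : Subgroup (N ≃ₐ[K] N)) :=
    IntermediateField.finrank_fixedField_eq_card _
  have h2 : Module.finrank K E * Module.finrank E N = Module.finrank K N :=
    Module.finrank_mul_finrank K E N
  have h3 : Nat.card (N ≃ₐ[K] N) = Module.finrank K N := IsGalois.card_aut_eq_finrank K N
  have h4 : Nat.card (P : Subgroup (N ≃ₐ[K] N)) * (P : Subgroup (N ≃ₐ[K] N)).index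
      = Nat.card (N ≃ₐ[K] N) := Subgroup.card_mul_index _
  have h5 : ¬ 2 ∣ (P : Subgroup (N ≃ₐ[K] N)).index := P.not_dvd_index
  have h6 : 0 < Nat.card (P : Subgroup (N ≃ₐ[K] N)) := Nat.card_pos
  have h7 : Module.finrank K E = (P : Subgroup (N ≃ₐ[K] N)).index := by
    apply Nat.eq_of_mul_eq_mul_right h6
    rw [← h1, h2, ← h3, ← h4, h1, mul_comm]
  have h8 : Odd (Module.finrank K E) := by
    rw [h7]; exact Nat.odd_iff.mpr (by omega)
  have h9 := finrank_eq_one_of_odd h8
  obtain ⟨m, hm⟩ := IsPGroup.iff_card.mp P.isPGroup'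
  refine ⟨m, ?_⟩
  rw [← h2, h9, one_mul, h1, hm]

/-- Over a field in which everything is a square (characteristic not 2) there is no quadratic
extension. -/
theorem finrank_ne_two {M E : Type*} [Field M] [CharZero M] [Field E] [Algebra M E]
    (hsq : ∀ x : M, ∃ y : M, y * y = x) : Module.finrank M E ≠ 2 := by
  intro h
  have : FiniteDimensional M E := Module.finite_of_finrank_eq_succ h
  have hall : ∀ α : E, ∃ c : M, algebraMap M E c = α := by
    intro α
    have hint : IsIntegral M α := Algebra.IsIntegral.isIntegral α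
    have hdvd : (minpoly M α).natDegree ≤ 2 := by
      have := minpoly.natDegree_le (A := M) α
      rwa [h] at this
    have hdeg2 : (minpoly M α).natDegree ≤ 2 := hdvd
    have hmonic := minpoly.monic hint
    have haev := minpoly.aeval M α
    have hpos := minpoly.natDegree_pos hint
    set p := minpoly M α with hp
    have h12 : p.natDegree = 1 ∨ p.natDegree = 2 := by omega
    have hexp : aeval α p = ∑ i ∈ Finset.range (p.natDegree + 1), algebraMap M E (p.coeff i) * α ^ i := by
      rw [aeval_eq_sum_range]
      simp [Algebra.smul_def]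
    rcases h12 with h1 | h1
    · have hc1 : p.coeff 1 = 1 := by
        have := hmonic.coeff_natDegree; rwa [h1] at this
      rw [hexp, h1] at haev
      simp [Finset.sum_range_succ, hc1] at haev
      refine ⟨-p.coeff 0, ?_⟩
      rw [map_neg]; linear_combination -haev
    · have hc2 : p.coeff 2 = 1 := by
        have := hmonic.coeff_natDegree; rwa [h1] at this
      rw [hexp, h1] at haev
      simp [Finset.sum_range_succ, hc2] at haev
      obtain ⟨w, hw⟩ := hsq (p.coeff 1 ^ 2 / 4 - p.coeff 0)
      have hw' := congrArg (algebraMap M E) hw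
      simp only [map_mul, map_sub, map_div₀, map_pow, map_ofNat] at hw'
      have : CharZero E := charZero_of_injective_algebraMap (algebraMap M E).injective
      have hfac : (α + algebraMap M E (p.coeff 1) / 2 - algebraMap M E w) *
          (α + algebraMap M E (p.coeff 1) / 2 + algebraMap M E w) = 0 := by
        have e1 : (α + algebraMap M E (p.coeff 1) / 2 - algebraMap M E w) *
          (α + algebraMap M E (p.coeff 1) / 2 + algebraMap M E w) =
          (α + algebraMap M E (p.coeff 1) / 2) ^ 2 - algebraMap M E w * algebraMap M E w := by ring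
        rw [e1, hw']
        linear_combination haev
      rcases mul_eq_zero.mp hfac with h3 | h3
      · refine ⟨w - p.coeff 1 / 2, ?_⟩
        rw [map_sub, map_div₀, map_ofNat]; linear_combination -h3
      · refine ⟨-w - p.coeff 1 / 2, ?_⟩
        rw [map_sub, map_div₀, map_ofNat, map_neg]; linear_combination -h3
  have hsurj : Function.Surjective (Algebra.linearMap M E) := fun α => hall α
  have hle : Module.finrank M E ≤ Module.finrank M M := by
    exact LinearMap.finrank_le_finrank_of_surjective hsurj
  rw [h, Module.finrank_self] at hle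
  omega

theorem fieldRange_eq_top [IsRealClosed K] {N : Type*} [Field N] [Algebra K N]
    [FiniteDimensional K N] [IsGalois K N] (φ : Cx K →ₐ[K] N) : φ.fieldRange = ⊤ := by
  have : Fact (Nat.Prime 2) := ⟨Nat.prime_two⟩
  let M : IntermediateField K N := φ.fieldRange
  obtain ⟨m, hm⟩ := card_gal_eq_two_pow (K := K) (N := N)
  have h2 : Module.finrank K M * Module.finrank M N = Module.finrank K N :=
    Module.finrank_mul_finrank K M N
  have h3 : Module.finrank M N ∣ 2 ^ m := by rw [← hm, ← h2]; exact Dvd.intro_left _ rfl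
  obtain ⟨a, ha, haM⟩ := (Nat.dvd_prime_pow Nat.prime_two).mp h3
  have hsq : ∀ x : M, ∃ y : M, y * y = x := by
    rintro ⟨x, hx⟩
    obtain ⟨c, rfl⟩ := hx
    obtain ⟨d, hd⟩ := Cx.isSquare c
    refine ⟨⟨φ d, ⟨d, rfl⟩⟩, ?_⟩
    ext
    simp [← map_mul, hd]
  rcases Nat.eq_zero_or_pos a with h0 | h0
  · rw [h0, pow_zero] at haM
    exact IntermediateField.finrank_eq_one_iff_eq_top.mp haM
  · exfalso
    have : CharZero M := charZero_of_injective_algebraMap (algebraMap K M).injective
    have hcard : Nat.card (N ≃ₐ[M] N) = 2 ^ a := by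
      rw [IsGalois.card_aut_eq_finrank, haM]
    obtain ⟨H, hH⟩ := Sylow.exists_subgroup_card_pow_prime (G := N ≃ₐ[M] N) 2 (n := a - 1)
      (by rw [hcard]; exact pow_dvd_pow 2 (by omega))
    let E := IntermediateField.fixedField H
    have h4 : Module.finrank E N = 2 ^ (a - 1) := by
      rw [← hH]; exact IntermediateField.finrank_fixedField_eq_card _
    have h5 : Module.finrank M E * Module.finrank E N = Module.finrank M N :=
      Module.finrank_mul_finrank M E N
    rw [h4, haM] at h5
    have h6 : (2 : ℕ) ^ a = 2 * 2 ^ (a - 1) := by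
      rw [← pow_succ']; congr 1; omega
    rw [h6] at h5
    exact finrank_ne_two hsq (Nat.eq_of_mul_eq_mul_right (by positivity) h5)

open scoped QuadraticAlgebra in
theorem Cx.omega_mul_omega : (QuadraticAlgebra.omega : Cx K) * QuadraticAlgebra.omega = -1 := by
  ext <;> simp

/-- The complexification of a real closed field is algebraically closed. -/
theorem Cx.isAlgClosed [IsRealClosed K] : IsAlgClosed (Cx K) := by
  refine IsAlgClosed.of_exists_root _ ?_
  intro p hmonic hirr
  let Ω := AlgebraicClosure (Cx K)
  have hchar : CharZero (Cx K) := charZero_of_injective_algebraMap (algebraMap K (Cx K)).injective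
  obtain ⟨z, hz⟩ := IsAlgClosed.exists_aeval_eq_zero Ω p (by
    exact (Polynomial.degree_pos_of_irreducible hirr).ne')
  have hΩ : Algebra.IsAlgebraic K Ω := by
    have : Algebra.IsAlgebraic K (Cx K) := Algebra.IsAlgebraic.of_finite K (Cx K)
    exact Algebra.IsAlgebraic.trans K (Cx K) Ω
  let j : Ω := algebraMap (Cx K) Ω QuadraticAlgebra.omega
  have hj : j * j = -1 := by
    rw [← map_mul, Cx.omega_mul_omega, map_neg, map_one]
  let S : Set Ω := {z, j}
  have hfin : FiniteDimensional K (IntermediateField.adjoin K S) := by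
    apply IntermediateField.finiteDimensional_adjoin
    intro x _
    exact (Algebra.IsAlgebraic.isAlgebraic (R := K) x).isIntegral
  let N := IntermediateField.normalClosure K (IntermediateField.adjoin K S) Ω
  have hNfin : FiniteDimensional K N := inferInstance
  have hNnorm : Normal K N := inferInstance
  have hNgal : IsGalois K N := ⟨⟩
  have hle : IntermediateField.adjoin K S ≤ N := IntermediateField.le_normalClosure _
  have hzN : z ∈ N := hle (IntermediateField.subset_adjoin K S (by simp [S]))
  have hjN : j ∈ N := hle (IntermediateField.subset_adjoin K S (by simp [S]))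
  let jN : N := ⟨j, hjN⟩
  have hjN' : jN * jN = (-1 : K) • (1 : N) + (0 : K) • jN := by
    apply Subtype.ext
    simp [jN, hj]
  let φ : Cx K →ₐ[K] N := QuadraticAlgebra.lift ⟨jN, hjN'⟩
  have htop := fieldRange_eq_top φ
  have hzr : (⟨z, hzN⟩ : N) ∈ φ.fieldRange := by rw [htop]; trivial
  obtain ⟨c, hc⟩ := hzr
  have hcomp : (N.val.comp φ) = IsScalarTower.toAlgHom K (Cx K) Ω := by
    apply QuadraticAlgebra.algHom_ext
    simp [φ, jN, j]
  have hzc : algebraMap (Cx K) Ω c = z := by
    have h1 := congrArg (fun f => f c) hcomp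
    simp only [AlgHom.comp_apply, IsScalarTower.coe_toAlgHom'] at h1
    have h2 : φ c = ⟨z, hzN⟩ := hc
    rw [← h1, h2]
    rfl
  refine ⟨c, ?_⟩
  rw [← hzc] at hz
  rw [Polynomial.aeval_algebraMap_apply] at hz
  simpa using hz

end Pool.Agent.RealClosed
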