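import Mathlib

/-!
# A density criterion via Newton iteration

`C` is an algebraically closed field of characteristic zero with an absolute value with values in
an ordered field `K` (think: `K` non-archimedean real closed, `C = K(i)`).  If `L` is a closed
subfield over which `C` is algebraic, such that every nonzero `z : C` is infinitely close
(relatively) to an element of `L`, and if powers of infinitesimals tend to zero, then `L = C`.
-/

open Polynomial

namespace Pool.Agent.RealClosed

universe u v

variable {K : Type u} [Field K] [LinearOrder K] [IsStrictOrderedRing K]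
variable {C : Type v} [Field C]

theorem coeff_bound_prod (abv : AbsoluteValue C K) (ρ : K) (hρ : 0 < ρ) (s : Multiset C)
    (hs : ∀ a ∈ s, ρ ≤ abv a) (k : ℕ) :
    abv ((s.map (fun a => X - Polynomial.C a)).prod.coeff k) * ρ ^ k ≤
      2 ^ (Multiset.card s) * abv ((s.map (fun a => X - Polynomial.C a)).prod.coeff 0) := by
  induction s using Multiset.induction_on generalizing k with
  | empty =>
    rcases Nat.eq_zero_or_pos k with hk | hk
    · subst hk; simp
    · have : (1 : C[X]).coeff k = 0 := by
        rw [Polynomial.coeff_one]; simp; omega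
      simp [this]
  | cons a s ih =>
    have hs' : ∀ a ∈ s, ρ ≤ abv a := fun b hb => hs b (Multiset.mem_cons_of_mem hb)
    have ha : ρ ≤ abv a := hs a (Multiset.mem_cons_self a s)
    set g := (s.map (fun a => X - Polynomial.C a)).prod with hg
    have e0 : ((a ::ₘ s).map (fun a => X - Polynomial.C a)).prod = (X - Polynomial.C a) * g := by
      rw [Multiset.map_cons, Multiset.prod_cons]
    rw [e0, Multiset.card_cons]
    have hc0 : ((X - Polynomial.C a) * g).coeff 0 = - a * g.coeff 0 := by
      simp [Polynomial.mul_coeff_zero]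
    have hA : abv (((X - Polynomial.C a) * g).coeff 0) = abv a * abv (g.coeff 0) := by
      rw [hc0, map_mul, AbsoluteValue.map_neg]
    have hg0 : 0 ≤ abv (g.coeff 0) := abv.nonneg _
    have h2 : (0 : K) ≤ 2 ^ (Multiset.card s) := by positivity
    rw [hA]
    rcases k with _ | k
    · rw [hA]
      simp only [pow_zero, mul_one]
      have : (1 : K) ≤ 2 ^ (Multiset.card s + 1) := one_le_pow₀ (by norm_num)
      have h3 : 0 ≤ abv a * abv (g.coeff 0) := mul_nonneg (abv.nonneg _) hg0
      nlinarith
    · have hck : ((X - Polynomial.C a) * g).coeff (k + 1) = g.coeff k - a * g.coeff (k + 1) := by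
        rw [sub_mul, Polynomial.coeff_sub, Polynomial.coeff_X_mul, Polynomial.coeff_C_mul]
      rw [hck]
      have i1 := ih hs' k
      have i2 := ih hs' (k + 1)
      have h4 : abv (g.coeff k - a * g.coeff (k + 1)) ≤
          abv (g.coeff k) + abv a * abv (g.coeff (k + 1)) := by
        have := abv.sub_le (g.coeff k) 0 (a * g.coeff (k + 1))
        simpa using this
      have h5 : abv (g.coeff k - a * g.coeff (k + 1)) * ρ ^ (k + 1) ≤
          (abv (g.coeff k) + abv a * abv (g.coeff (k + 1))) * ρ ^ (k + 1) :=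
        mul_le_mul_of_nonneg_right h4 (by positivity)
      have h6 : (abv (g.coeff k) + abv a * abv (g.coeff (k + 1))) * ρ ^ (k + 1) =
          ρ * (abv (g.coeff k) * ρ ^ k) + abv a * (abv (g.coeff (k + 1)) * ρ ^ (k + 1)) := by
        ring
      have h7 : ρ * (abv (g.coeff k) * ρ ^ k) ≤
          abv a * (2 ^ (Multiset.card s) * abv (g.coeff 0)) := by
        apply mul_le_mul ha i1 _ (abv.nonneg _)
        exact mul_nonneg (abv.nonneg _) (by positivity)
      have h8 : abv a * (abv (g.coeff (k + 1)) * ρ ^ (k + 1)) ≤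
          abv a * (2 ^ (Multiset.card s) * abv (g.coeff 0)) :=
        mul_le_mul_of_nonneg_left i2 (abv.nonneg _)
      calc abv (g.coeff k - a * g.coeff (k + 1)) * ρ ^ (k + 1)
          ≤ _ := h5
        _ = _ := h6
        _ ≤ _ := add_le_add h7 h8
        _ = _ := by ring

theorem coeff_bound [IsAlgClosed C] (abv : AbsoluteValue C K) (ρ : K) (hρ : 0 < ρ) (g : C[X])
    (hs : ∀ a ∈ g.roots, ρ ≤ abv a) (k : ℕ) :
    abv (g.coeff k) * ρ ^ k ≤ 2 ^ g.natDegree * abv (g.coeff 0) := by
  have hsplit : g.Splits := IsAlgClosed.splits g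
  have hfac := hsplit.eq_prod_roots
  have hcard : Multiset.card g.roots = g.natDegree := hsplit.natDegree_eq_card_roots.symm
  have h := coeff_bound_prod abv ρ hρ g.roots hs k
  rw [hcard] at h
  set q := (g.roots.map (fun a => X - Polynomial.C a)).prod with hq
  have e1 : ∀ i, g.coeff i = g.leadingCoeff * q.coeff i := by
    intro i
    conv_lhs => rw [hfac]
    rw [Polynomial.coeff_C_mul]
  rw [e1 k, e1 0, map_mul, map_mul]
  have := mul_le_mul_of_nonneg_left h (abv.nonneg g.leadingCoeff)
  calc _ = abv g.leadingCoeff * (abv (q.coeff k) * ρ ^ k) := by ring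
    _ ≤ _ := this
    _ = _ := by ring

/-- One Newton step, in coordinates in which the root is `0`. -/
theorem newton_step [CharZero C] [IsAlgClosed C] (abv : AbsoluteValue C K)
    (hnat : ∀ n : ℕ, abv (n : C) = n) (ρ : K) (hρ : 0 < ρ) (P : C[X]) (hP0 : P.coeff 0 = 0)
    (hroots : ∀ a ∈ P.derivative.roots, ρ ≤ abv a) (hd : P.derivative.coeff 0 ≠ 0) (h : C)
    (M : K) (hM : M = 2 * (P.natDegree * 2 ^ P.natDegree))
    (hh : M * (abv h / ρ) ≤ 1) :
    P.derivative.eval h ≠ 0 ∧
      abv (h - P.eval h / P.derivative.eval h) ≤ M * (abv h / ρ) * abv h := by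
  set g := P.derivative with hg
  have hn : 0 < P.natDegree := by
    by_contra hcon
    have : P.natDegree = 0 := by omega
    rw [Polynomial.natDegree_eq_zero] at this
    obtain ⟨c, hc⟩ := this
    apply hd
    rw [hg, ← hc]; simp
  set n := P.natDegree with hndef
  set m := g.natDegree with hm
  have hmn : m < n := by
    rw [hm, hg]; exact Polynomial.natDegree_derivative_lt (by omega)
  have hmn' : n = m + 1 := by
    have := Polynomial.natDegree_derivative P
    rw [← hg, ← hm, ← hndef] at this; omega
  set η := abv h / ρ with hη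
  have hη0 : 0 ≤ η := div_nonneg (abv.nonneg _) hρ.le
  set A := abv (g.coeff 0) with hA
  have hApos : 0 < A := abv.pos hd
  have hB : ∀ k, abv (g.coeff k) * ρ ^ k ≤ 2 ^ m * A := fun k => coeff_bound abv ρ hρ g hroots k
  have hM1 : M * η ≤ 1 := hh
  have hMpos : 1 ≤ M := by
    rw [hM]
    have h1 : (1 : K) ≤ (n : K) := by exact_mod_cast hn
    have h2 : (1 : K) ≤ 2 ^ n := one_le_pow₀ (by norm_num)
    nlinarith
  have hη1 : η ≤ 1 := by nlinarith
  -- term bound
  have hterm : ∀ k, abv (g.coeff (k + 1)) * abv h ^ (k + 1) ≤ 2 ^ m * A * η := by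
    intro k
    have h1 : abv h = η * ρ := by rw [hη]; field_simp
    have h2 : abv (g.coeff (k + 1)) * abv h ^ (k + 1) =
        (abv (g.coeff (k + 1)) * ρ ^ (k + 1)) * η ^ (k + 1) := by
      rw [h1, mul_pow]; ring
    rw [h2]
    have h3 : η ^ (k + 1) ≤ η := by
      have := pow_le_pow_of_le_one hη0 hη1 (show 1 ≤ k + 1 by omega)
      simpa using this
    have h4 : 0 ≤ 2 ^ m * A := by positivity
    exact mul_le_mul (hB (k + 1)) h3 (by positivity) h4
  -- expansions
  have hgev : g.eval h = ∑ k ∈ Finset.range (m + 1), g.coeff k * h ^ k :=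
    Polynomial.eval_eq_sum_range' (by omega) h
  have hgsub : g.eval h - g.coeff 0 = ∑ k ∈ Finset.range m, g.coeff (k + 1) * h ^ (k + 1) := by
    rw [hgev, Finset.sum_range_succ']; simp
  have hPev : P.eval h = ∑ k ∈ Finset.range (m + 1), g.coeff k / ((k : C) + 1) * h ^ (k + 1) := by
    rw [Polynomial.eval_eq_sum_range' (show P.natDegree < m + 2 by omega) h,
      Finset.sum_range_succ', hP0]
    simp only [pow_zero, mul_one, add_zero]
    apply Finset.sum_congr rfl
    intro k _
    rw [hg, Polynomial.coeff_derivative]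
    have : (k : C) + 1 ≠ 0 := by exact_mod_cast Nat.succ_ne_zero k
    field_simp
  have hE : h * g.eval h - P.eval h =
      ∑ k ∈ Finset.range m, ((k : C) + 1) / ((k : C) + 2) * (g.coeff (k + 1) * h ^ (k + 1)) * h := by
    rw [hgev, hPev, Finset.mul_sum, ← Finset.sum_sub_distrib, Finset.sum_range_succ']
    simp only [Nat.cast_zero, zero_add, pow_zero, mul_one, div_one, pow_one]
    rw [mul_comm h (g.coeff 0), sub_self, add_zero]
    apply Finset.sum_congr rfl
    intro k _
    have h1 : (k : C) + 1 + 1 ≠ 0 := by exact_mod_cast Nat.succ_ne_zero (k + 1)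
    have h2 : (k : C) + 2 ≠ 0 := by exact_mod_cast Nat.succ_ne_zero (k + 1)
    push_cast
    field_simp
    ring
  have hE' : abv (h * g.eval h - P.eval h) ≤ (m * (2 ^ m * A * η)) * abv h := by
    rw [hE]
    refine (AbsoluteValue.sum_le _ _ _).trans ?_
    have : ∀ k ∈ Finset.range m,
        abv (((k : C) + 1) / ((k : C) + 2) * (g.coeff (k + 1) * h ^ (k + 1)) * h) ≤
          (2 ^ m * A * η) * abv h := by
      intro k _
      rw [map_mul, map_mul, map_div₀]
      have e1 : abv ((k : C) + 1) = (k : K) + 1 := by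
        have := hnat (k + 1); push_cast at this; exact this
      have e2 : abv ((k : C) + 2) = (k : K) + 2 := by
        have := hnat (k + 2); push_cast at this; exact this
      rw [e1, e2]
      have h3 : ((k : K) + 1) / ((k : K) + 2) ≤ 1 := by
        rw [div_le_one (by positivity)]; linarith
      have h4 : 0 ≤ ((k : K) + 1) / ((k : K) + 2) := by positivity
      have h5 : abv (g.coeff (k + 1) * h ^ (k + 1)) ≤ 2 ^ m * A * η := by
        rw [map_mul, map_pow]; exact hterm k
      have h6 : ((k : K) + 1) / ((k : K) + 2) * abv (g.coeff (k + 1) * h ^ (k + 1)) ≤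
          1 * (2 ^ m * A * η) := mul_le_mul h3 h5 (abv.nonneg _) zero_le_one
      rw [one_mul] at h6
      exact mul_le_mul_of_nonneg_right h6 (abv.nonneg _)
    refine (Finset.sum_le_sum this).trans ?_
    rw [Finset.sum_const, Finset.card_range, nsmul_eq_mul]
    apply le_of_eq; ring
  have hg' : abv (g.eval h - g.coeff 0) ≤ m * (2 ^ m * A * η) := by
    rw [hgsub]
    refine (AbsoluteValue.sum_le _ _ _).trans ?_
    have : ∀ k ∈ Finset.range m, abv (g.coeff (k + 1) * h ^ (k + 1)) ≤ (2 ^ m * A * η) := by
      intro k _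
      rw [map_mul, map_pow]; exact hterm k
    refine (Finset.sum_le_sum this).trans ?_
    rw [Finset.sum_const, Finset.card_range, nsmul_eq_mul]
  have hm2 : (m : K) * 2 ^ m ≤ M / 2 := by
    rw [hM, hmn']
    push_cast
    have h1 : (0 : K) ≤ m := Nat.cast_nonneg m
    have h2 : (1 : K) ≤ 2 ^ m := one_le_pow₀ (by norm_num)
    rw [pow_succ]
    nlinarith
  have hhalf : (m : K) * (2 ^ m * A * η) ≤ A / 2 := by
    have h1 : (m : K) * (2 ^ m * A * η) = (m * 2 ^ m) * η * A := by ring
    rw [h1]
    have h2 : (m * 2 ^ m : K) * η ≤ M / 2 * η := mul_le_mul_of_nonneg_right hm2 hη0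
    have h3 : (m * 2 ^ m : K) * η ≤ 1 / 2 := by linarith
    nlinarith
  have hglow : A / 2 ≤ abv (g.eval h) := by
    have h1 := abv.sub_le (g.coeff 0) (g.eval h) 0
    simp only [sub_zero] at h1
    have h2 : abv (g.coeff 0 - g.eval h) = abv (g.eval h - g.coeff 0) := abv.map_sub _ _
    rw [h2] at h1
    linarith
  have hgpos : 0 < abv (g.eval h) := by linarith
  have hgne : g.eval h ≠ 0 := by
    intro h0; rw [h0, AbsoluteValue.map_zero] at hgpos; exact lt_irrefl _ hgpos
  refine ⟨hgne, ?_⟩
  have hrew : h - P.eval h / g.eval h = (h * g.eval h - P.eval h) / g.eval h := by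
    field_simp
  rw [hrew, map_div₀, div_le_iff₀ hgpos]
  refine hE'.trans ?_
  have hah : 0 ≤ abv h := abv.nonneg h
  have h1 : (m : K) * (2 ^ m * A * η) * abv h = (m * 2 ^ m) * (A * η * abv h) := by ring
  have h2 : M * η * abv h * abv (g.eval h) ≥ M * η * abv h * (A / 2) :=
    mul_le_mul_of_nonneg_left hglow (by positivity)
  have h3 : (m * 2 ^ m : K) * (A * η * abv h) ≤ M / 2 * (A * η * abv h) :=
    mul_le_mul_of_nonneg_right hm2 (by positivity)
  rw [h1]
  nlinarith

/-- The density criterion. -/
theorem mem_of_immediate [CharZero C] [IsAlgClosed C] (abv : AbsoluteValue C K)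
    (hnat : ∀ n : ℕ, abv (n : C) = n) (L : Subfield C)
    (halg : ∀ z : C, IsAlgebraic L z)
    (hclosed : ∀ z : C, (∀ δ : K, 0 < δ → ∃ b ∈ L, abv (z - b) < δ) → z ∈ L)
    (himm : ∀ z : C, z ≠ 0 → ∃ d ∈ L, ∀ n : ℕ, n * abv (z - d) < abv z)
    (hrank : ∀ θ : K, 0 < θ → (∀ n : ℕ, n * θ < 1) → ∀ δ : K, 0 < δ → ∃ k : ℕ, θ ^ k < δ)
    (z : C) : z ∈ L := by
  suffices H : ∀ n : ℕ, ∀ z : C, (minpoly L z).natDegree = n → z ∈ L from H _ z rfl
  intro n
  induction n using Nat.strong_induction_on with
  | _ n ih =>
  intro z hz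
  have hint : IsIntegral L z := (halg z).isIntegral
  have hirr := minpoly.irreducible hint
  have hpos : 0 < n := by rw [← hz]; exact minpoly.natDegree_pos hint
  rcases Nat.eq_or_lt_of_le (show 1 ≤ n from hpos) with h1 | h1
  · have h2 : (minpoly L z).degree = 1 := by
      have h5 := (Polynomial.degree_eq_iff_natDegree_eq_of_pos (p := minpoly L z) one_pos).mpr
        (by omega)
      exact_mod_cast h5
    have h3 := minpoly.mem_range_of_degree_eq_one L z h2
    obtain ⟨y, hy⟩ := h3
    rw [← hy]; exact y.2
  -- the minimal polynomial and its derivative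
  set p := minpoly L z with hp
  set φ : L →+* C := algebraMap L C with hφ
  set P : C[X] := taylor z (p.map φ) with hP
  have hPdeg : P.natDegree = n := by rw [hP, natDegree_taylor, natDegree_map, hz]
  have hP0 : P.coeff 0 = 0 := by
    rw [hP, taylor_coeff_zero, eval_map]
    exact minpoly.aeval L z
  have hcomm : P.derivative = taylor z ((derivative p).map φ) := by
    rw [hP, Polynomial.taylor_apply, Polynomial.taylor_apply, Polynomial.derivative_comp,
      Polynomial.derivative_map]
    simp
  have hdne : derivative p ≠ 0 := by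
    intro h0
    have := Polynomial.derivative_eq_zero.mp h0
    omega
  have hddeg : (derivative p).natDegree < n := by
    have := Polynomial.natDegree_derivative_lt (p := p) (by omega)
    omega
  have hd : P.derivative.coeff 0 ≠ 0 := by
    rw [hcomm, taylor_coeff_zero, eval_map]
    intro h0
    have h2 : p ∣ derivative p := minpoly.dvd L z h0
    have h3 := Polynomial.natDegree_le_of_dvd h2 hdne
    omega
  -- roots of the derivative lie in `L`
  have hrootL : ∀ a ∈ P.derivative.roots, z + a ∈ L := by
    intro a ha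
    have h2 : (derivative p).eval₂ φ (a + z) = 0 := by
      have := Polynomial.isRoot_of_mem_roots ha
      rw [hcomm, Polynomial.IsRoot, taylor_eval, eval_map] at this
      exact this
    have h3 : minpoly L (a + z) ∣ derivative p := minpoly.dvd L _ h2
    have h4 := Polynomial.natDegree_le_of_dvd h3 hdne
    have := ih _ (lt_of_le_of_lt h4 hddeg) (a + z) rfl
    rwa [add_comm] at this
  have hrootne : ∀ a ∈ P.derivative.roots, a ≠ 0 := by
    intro a ha h0
    have := Polynomial.isRoot_of_mem_roots ha
    rw [h0, Polynomial.IsRoot, ← Polynomial.coeff_zero_eq_eval_zero] at this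
    exact hd this
  -- there is a root
  have hex : ∃ a, a ∈ P.derivative.roots := by
    have hdeg1 : P.derivative.natDegree ≠ 0 := by
      have := Polynomial.natDegree_derivative P
      omega
    obtain ⟨a, ha⟩ := IsAlgClosed.exists_root P.derivative (by
      intro h0
      exact hdeg1 (Polynomial.natDegree_eq_of_degree_eq_some h0))
    refine ⟨a, ?_⟩
    rw [Polynomial.mem_roots (by intro h0; rw [h0] at hd; simp at hd)]
    exact ha
  -- a root of minimal absolute value
  obtain ⟨a0, ha0, hmin⟩ : ∃ a0 ∈ P.derivative.roots, ∀ a ∈ P.derivative.roots,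
      abv a0 ≤ abv a := by
    classical
    obtain ⟨a, ha⟩ := hex
    obtain ⟨a0, h0, h1⟩ := Finset.exists_min_image P.derivative.roots.toFinset abv
      ⟨a, by simpa using ha⟩
    refine ⟨a0, Multiset.mem_toFinset.mp h0, fun b hb => h1 b (Multiset.mem_toFinset.mpr hb)⟩
  set ρ := abv a0 with hρdef
  have hρ : 0 < ρ := abv.pos (hrootne a0 ha0)
  obtain ⟨d, hdL, hdn⟩ := himm (-a0) (neg_ne_zero.mpr (hrootne a0 ha0))
  rw [AbsoluteValue.map_neg, ← hρdef] at hdn
  set b0 : C := (z + a0) + d with hb0
  have hb0L : b0 ∈ L := L.add_mem (hrootL a0 ha0) hdL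
  have hh0 : ∀ m : ℕ, m * abv (b0 - z) < ρ := by
    intro m
    have e : b0 - z = -(-a0 - d) := by rw [hb0]; ring
    rw [e, AbsoluteValue.map_neg]; exact hdn m
  set h0 := b0 - z with hh0def
  by_cases hzero : h0 = 0
  · have : z = b0 := by rw [hh0def] at hzero; exact (sub_eq_zero.mp hzero).symm
    rw [this]; exact hb0L
  set M : K := 2 * (P.natDegree * 2 ^ P.natDegree) with hM
  have hMnat : M = ((2 * (P.natDegree * 2 ^ P.natDegree) : ℕ) : K) := by rw [hM]; push_cast; ring
  have hMpos : 0 < M := by
    rw [hM, hPdeg]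
    have : (0 : K) < n := by exact_mod_cast hpos
    positivity
  set θ : K := M * (abv h0 / ρ) with hθ
  have hh0pos : 0 < abv h0 := abv.pos hzero
  have hθpos : 0 < θ := by rw [hθ]; positivity
  have hθinf : ∀ m : ℕ, m * θ < 1 := by
    intro m
    have h1 := hh0 (m * (2 * (P.natDegree * 2 ^ P.natDegree)))
    rw [Nat.cast_mul, ← hMnat] at h1
    have h2 : m * θ = (m * M * abv h0) / ρ := by rw [hθ]; field_simp
    rw [h2, div_lt_one hρ]; exact h1
  have hθ1 : θ < 1 := by simpa using hθinf 1
  -- the Newton iteration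
  have hiter : ∀ k : ℕ, ∃ b ∈ L, abv (b - z) ≤ θ ^ k * abv h0 := by
    intro k
    induction k with
    | zero => exact ⟨b0, hb0L, by rw [pow_zero, one_mul]⟩
    | succ k ihk =>
      obtain ⟨b, hbL, hb⟩ := ihk
      have hle : abv (b - z) ≤ abv h0 := by
        refine hb.trans ?_
        have : θ ^ k ≤ 1 := pow_le_one₀ hθpos.le hθ1.le
        nlinarith
      have hsmall : M * (abv (b - z) / ρ) ≤ θ := by
        rw [hθ]
        exact mul_le_mul_of_nonneg_left (div_le_div_of_nonneg_right hle hρ.le) hMpos.le
      obtain ⟨_, hstep⟩ := newton_step abv hnat ρ hρ P hP0 hmin hd (b - z) M hM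
        (hsmall.trans hθ1.le)
      refine ⟨b - (aeval b p) / (aeval b (derivative p)), ?_, ?_⟩
      · have e1 : (aeval b p) ∈ L := by
          have : aeval b p = φ (aeval (⟨b, hbL⟩ : L) p) := by
            rw [hφ, ← Polynomial.aeval_algebraMap_apply]; rfl
          rw [this]; exact (aeval (⟨b, hbL⟩ : L) p).2
        have e2 : (aeval b (derivative p)) ∈ L := by
          have : aeval b (derivative p) = φ (aeval (⟨b, hbL⟩ : L) (derivative p)) := by
            rw [hφ, ← Polynomial.aeval_algebraMap_apply]; rfl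
          rw [this]; exact (aeval (⟨b, hbL⟩ : L) (derivative p)).2
        exact L.sub_mem hbL (L.div_mem e1 e2)
      · have e1 : P.eval (b - z) = aeval b p := by
          rw [hP, taylor_eval, eval_map, sub_add_cancel]; rfl
        have e2 : P.derivative.eval (b - z) = aeval b (derivative p) := by
          rw [hcomm, taylor_eval, eval_map, sub_add_cancel]; rfl
        rw [e1, e2] at hstep
        have e3 : b - (aeval b p) / (aeval b (derivative p)) - z =
            (b - z) - (aeval b p) / (aeval b (derivative p)) := by ring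
        rw [e3]
        refine hstep.trans ?_
        calc M * (abv (b - z) / ρ) * abv (b - z) ≤ θ * (θ ^ k * abv h0) :=
              mul_le_mul hsmall hb (abv.nonneg _) hθpos.le
          _ = θ ^ (k + 1) * abv h0 := by ring
  apply hclosed
  intro δ hδ
  obtain ⟨k, hk⟩ := hrank θ hθpos hθinf (δ / abv h0) (div_pos hδ hh0pos)
  obtain ⟨b, hbL, hb⟩ := hiter k
  refine ⟨b, hbL, ?_⟩
  rw [abv.map_sub]
  refine lt_of_le_of_lt hb ?_
  rwa [lt_div_iff₀ hh0pos] at hk

end Pool.Agent.RealClosed
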