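import Pool.Agent.RealClosed.Values
import Pool.Agent.RealClosed.Newton

/-!
# A density criterion for subfields of a real closed field algebraic over `ℚ(t)`
-/

open Polynomial ArchimedeanClass

namespace Pool.Agent.RealClosed

universe u v

variable {K : Type u} [Field K] [LinearOrder K] [IsStrictOrderedRing K]

open scoped IntermediateField.algebraAdjoinAdjoin in
theorem exists_rel (t : K) (halg : Algebra.IsAlgebraic (IntermediateField.adjoin ℚ {t}) K)
    {B : Type v} [Field B] [Algebra K B] [Algebra ℚ B] [IsScalarTower ℚ K B]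
    [Algebra.IsAlgebraic K B] (z : B) :
    ∃ P : ℚ[X][X], P ≠ 0 ∧
      P.eval₂ (aeval (algebraMap K B t) : ℚ[X] →ₐ[ℚ] B).toRingHom z = 0 := by
  have h1 : Algebra.IsAlgebraic (IntermediateField.adjoin ℚ {t}) B :=
    Algebra.IsAlgebraic.trans (IntermediateField.adjoin ℚ {t}) K B
  have h2 : IsAlgebraic (IntermediateField.adjoin ℚ {t}) z := h1.isAlgebraic z
  have h3 : IsAlgebraic (Algebra.adjoin ℚ {t}) z :=
    (IsFractionRing.isAlgebraic_iff (Algebra.adjoin ℚ {t}) (IntermediateField.adjoin ℚ {t}) B).mpr h2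
  obtain ⟨p, hp, hpz⟩ := h3
  -- surjection from `ℚ[X]`
  let φ : ℚ[X] →ₐ[ℚ] Algebra.adjoin ℚ {t} :=
    aeval (⟨t, Algebra.self_mem_adjoin_singleton ℚ t⟩ : Algebra.adjoin ℚ {t})
  have hφ : Function.Surjective φ := by
    rintro ⟨x, hx⟩
    have hx' := hx
    rw [Algebra.adjoin_singleton_eq_range_aeval] at hx'
    obtain ⟨f, hf⟩ := hx'
    refine ⟨f, ?_⟩
    apply Subtype.ext
    have : ((φ f : Algebra.adjoin ℚ {t}) : K) = aeval t f := by
      rw [← Subalgebra.coe_val, ← AlgHom.comp_apply]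
      congr 1
      apply Polynomial.algHom_ext
      simp [φ]
    rw [this]; exact hf
  obtain ⟨P, hP⟩ := Polynomial.map_surjective φ.toRingHom hφ p
  refine ⟨P, ?_, ?_⟩
  · rintro rfl
    apply hp
    rw [← hP, Polynomial.map_zero]
  · rw [← hP] at hpz
    rw [Polynomial.aeval_def, Polynomial.eval₂_map] at hpz
    have : (algebraMap (Algebra.adjoin ℚ {t}) B).comp φ.toRingHom =
        (aeval (algebraMap K B t) : ℚ[X] →ₐ[ℚ] B).toRingHom := by
      apply Polynomial.ringHom_ext
      · intro a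
        simp [φ]
      · simp [φ]
    rw [this] at hpz
    exact hpz

theorem mk_inv_le_mk_inv {x y : K} (h : ArchimedeanClass.mk x ≤ ArchimedeanClass.mk y) (hy : y ≠ 0) :
    ArchimedeanClass.mk y⁻¹ ≤ ArchimedeanClass.mk x⁻¹ := by
  have hx : x ≠ 0 := by
    rintro rfl
    rw [ArchimedeanClass.mk_zero] at h
    exact hy (ArchimedeanClass.mk_eq_top_iff.mp (top_le_iff.mp h))
  rw [ArchimedeanClass.mk_le_mk] at h ⊢
  obtain ⟨n, hn⟩ := h
  refine ⟨n, ?_⟩
  rw [nsmul_eq_mul] at hn ⊢
  have h1 : 0 < |x| := abs_pos.mpr hx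
  have h2 : 0 < |y| := abs_pos.mpr hy
  rw [abs_inv, abs_inv, ← div_eq_mul_inv, inv_eq_one_div, div_le_div_iff₀ h1 h2]
  linarith

theorem abs_one_lt {t : K} (ht : ArchimedeanClass.mk t < 0) : 1 < |t| := by
  simpa using mk_lt_zero_iff.mp ht 1

theorem zpow_mk_le {t : K} (ht : ArchimedeanClass.mk t < 0) {i j : ℤ} (hij : i ≤ j) :
    ArchimedeanClass.mk (t ^ j) ≤ ArchimedeanClass.mk (t ^ i) := by
  apply ArchimedeanClass.mk_le_mk_of_abs
  rw [abs_zpow, abs_zpow]
  exact zpow_le_zpow_right₀ (abs_one_lt ht).le hij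

theorem exists_pow_mk_le {t : K} (ht : ArchimedeanClass.mk t < 0)
    (hval : ∀ c : K, c ≠ 0 → ∃ m : ℕ, 0 < m ∧ ∃ k : ℤ,
      m • ArchimedeanClass.mk c = k • ArchimedeanClass.mk t) (a : K) :
    ∃ n : ℕ, ArchimedeanClass.mk (t ^ n) ≤ ArchimedeanClass.mk a := by
  by_cases ha : a = 0
  · exact ⟨0, by rw [ha, ArchimedeanClass.mk_zero]; exact le_top⟩
  by_cases h0 : 0 ≤ ArchimedeanClass.mk a
  · exact ⟨0, by rw [pow_zero, ArchimedeanClass.mk_one]; exact h0⟩
  obtain ⟨m, hm, k, hk⟩ := hval a ha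
  refine ⟨k.natAbs, ?_⟩
  have h1 : m • ArchimedeanClass.mk a ≤ ArchimedeanClass.mk a := by
    obtain ⟨l, rfl⟩ := Nat.exists_eq_succ_of_ne_zero hm.ne'
    rw [Nat.succ_eq_add_one, succ_nsmul]
    exact add_le_of_nonpos_left (nsmul_nonpos (not_le.mp h0).le l)
  refine le_trans ?_ h1
  rw [hk, ← ArchimedeanClass.mk_zpow, ← zpow_natCast]
  exact zpow_mk_le ht (by simpa using le_abs_self k)

theorem exists_pow_lt_of_infinitesimal {t : K} (ht : ArchimedeanClass.mk t < 0)
    (hval : ∀ c : K, c ≠ 0 → ∃ m : ℕ, 0 < m ∧ ∃ k : ℤ,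
      m • ArchimedeanClass.mk c = k • ArchimedeanClass.mk t) {θ : K}
    (hθ : 0 < ArchimedeanClass.mk θ) {δ : K} (hδ : δ ≠ 0) :
    ∃ n : ℕ, ArchimedeanClass.mk δ < ArchimedeanClass.mk (θ ^ n) := by
  by_cases hθ0 : θ = 0
  · exact ⟨1, by rw [hθ0, pow_one, ArchimedeanClass.mk_zero]; simpa [lt_top_iff_ne_top] using hδ⟩
  have ht0 : t ≠ 0 := by rintro rfl; simp at ht
  obtain ⟨m, hm, k, hk⟩ := hval θ hθ0
  have hk1 : k ≤ -1 := by
    by_contra hcon
    have hk0 : 0 ≤ k := by omega
    have h1 : k • ArchimedeanClass.mk t ≤ 0 := by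
      rw [← ArchimedeanClass.mk_zpow]
      have := zpow_mk_le ht hk0
      simpa using this
    rw [← hk] at h1
    exact absurd (nsmul_pos_of_pos hθ hm.ne') (not_lt.mpr h1)
  have h2 : ArchimedeanClass.mk t⁻¹ ≤ ArchimedeanClass.mk (θ ^ m) := by
    rw [ArchimedeanClass.mk_pow, hk, ← ArchimedeanClass.mk_zpow]
    have := zpow_mk_le ht hk1
    simpa using this
  obtain ⟨n, hn⟩ := exists_pow_mk_le ht hval δ⁻¹
  have h3 : ArchimedeanClass.mk δ ≤ ArchimedeanClass.mk (t⁻¹ ^ n) := by
    have := mk_inv_le_mk_inv hn (inv_ne_zero hδ)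
    rwa [inv_inv, ← inv_pow] at this
  refine ⟨m * (n + 1), ?_⟩
  have h4 : ArchimedeanClass.mk (t⁻¹ ^ n) < ArchimedeanClass.mk (t⁻¹ ^ (n + 1)) := by
    rw [ArchimedeanClass.mk_lt_mk]
    intro l
    have h5 := mk_lt_zero_iff.mp ht l
    have h6 : 0 < |t| := lt_of_le_of_lt (Nat.cast_nonneg l) h5
    have h7 : (0 : K) < |t⁻¹ ^ n| := by
      rw [abs_pow, abs_inv]; positivity
    rw [pow_succ, abs_mul, nsmul_eq_mul, abs_inv t]
    have h8 : (l : K) * (|t⁻¹ ^ n| * |t|⁻¹) = |t⁻¹ ^ n| * (l / |t|) := by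
      rw [div_eq_mul_inv]; ring
    rw [h8]
    have h9 : (l : K) / |t| < 1 := by rw [div_lt_one h6]; exact h5
    exact mul_lt_of_lt_one_right h7 h9
  refine lt_of_le_of_lt h3 (lt_of_lt_of_le h4 ?_)
  rw [pow_mul, ArchimedeanClass.mk_pow, ArchimedeanClass.mk_pow]
  exact nsmul_le_nsmul_right h2 (n + 1)

theorem sz_algebraMap_rat [IsRealClosed K] (a : ℚ) (ha : a ≠ 0) :
    sz (algebraMap ℚ (Cx K) a) = 0 := by
  have : algebraMap ℚ (Cx K) a = algebraMap K (Cx K) (algebraMap ℚ K a) := by simp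
  rw [this, sz_algebraMap, mk_ratCast_of_ne ha]

theorem sz_algebraMap_rat_nonneg [IsRealClosed K] (a : ℚ) :
    0 ≤ sz (algebraMap ℚ (Cx K) a) := by
  by_cases ha : a = 0
  · rw [ha, map_zero, sz_zero]; exact le_top
  · rw [sz_algebraMap_rat a ha]

theorem not_pos_of_isAlgebraic [IsRealClosed K] {β : Cx K} (h : IsAlgebraic ℚ β) (h0 : β ≠ 0) :
    ¬ 0 < sz β := by
  intro hpos
  have hint : IsIntegral ℚ β := h.isIntegral
  have hc := minpoly.coeff_zero_ne_zero hint h0
  set q := minpoly ℚ β with hq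
  have hev : aeval β q = 0 := minpoly.aeval ℚ β
  have h1 : aeval β q = ∑ i ∈ Finset.range (q.natDegree + 1), algebraMap ℚ (Cx K) (q.coeff i) * β ^ i := by
    rw [Polynomial.aeval_eq_sum_range]
    simp [Algebra.smul_def]
  rw [h1, Finset.sum_range_succ'] at hev
  simp only [pow_zero, mul_one] at hev
  have h2 : algebraMap ℚ (Cx K) (q.coeff 0) =
      -∑ i ∈ Finset.range q.natDegree, algebraMap ℚ (Cx K) (q.coeff (i + 1)) * β ^ (i + 1) := by
    linear_combination hev
  have h3 : 0 < sz (algebraMap ℚ (Cx K) (q.coeff 0)) := by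
    rw [h2, sz_neg]
    apply lt_sz_sum _ _ zero_ne_top
    intro i _
    rw [sz_mul, sz_pow]
    exact lt_of_lt_of_le (nsmul_pos_of_pos hpos (by omega))
      (le_add_of_nonneg_left (sz_algebraMap_rat_nonneg _))
  rw [sz_algebraMap_rat _ hc] at h3
  exact lt_irrefl _ h3

theorem sz_inv [IsRealClosed K] (z : Cx K) : sz z⁻¹ = -sz z := by
  rw [sz, map_inv₀, ArchimedeanClass.mk_inv]; rfl

theorem sz_of_isAlgebraic [IsRealClosed K] {β : Cx K} (h : IsAlgebraic ℚ β) (h0 : β ≠ 0) :
    sz β = 0 := by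
  apply le_antisymm (not_lt.mp (not_pos_of_isAlgebraic h h0))
  by_contra hcon
  have hneg : sz β < 0 := not_le.mp hcon
  have h1 : 0 < sz β⁻¹ := by
    rw [sz, map_inv₀]
    exact mk_inv_pos hneg
  exact not_pos_of_isAlgebraic h.inv (inv_ne_zero h0) h1

theorem mk_of_isAlgebraic [IsRealClosed K] {β : K} (h : IsAlgebraic ℚ β) (h0 : β ≠ 0) :
    ArchimedeanClass.mk β = 0 := by
  rw [← sz_algebraMap]
  apply sz_of_isAlgebraic
  · exact h.algebraMap
  · simpa using h0

/-- The closure of a subfield in the order topology. -/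
theorem exists_closure (F : Subfield K) :
    ∃ G : Subfield K, ∀ a : K, a ∈ G ↔ ∀ δ : K, 0 < δ → ∃ f ∈ F, |a - f| < δ := by
  let _ : TopologicalSpace K := Preorder.topology K
  have _ : OrderTopology K := ⟨rfl⟩
  refine ⟨F.topologicalClosure, fun a => ?_⟩
  have h1 : a ∈ F.topologicalClosure ↔ a ∈ closure (F : Set K) := Iff.rfl
  rw [h1, mem_closure_iff_nhds_basis (nhds_basis_abs_sub_lt a)]
  constructor
  · intro h δ hδ
    obtain ⟨f, hf, hf'⟩ := h δ hδ
    exact ⟨f, hf, by rw [abs_sub_comm]; exact hf'⟩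
  · intro h δ hδ
    obtain ⟨f, hf, hf'⟩ := h δ hδ
    exact ⟨f, hf, by rw [abs_sub_comm] at hf'; exact hf'⟩

/-- The subfield `G + iG` of `K(i)`. -/
def complexSubfield (G : Subfield K) : Subfield (Cx K) where
  carrier := {z | z.re ∈ G ∧ z.im ∈ G}
  mul_mem' := by
    rintro z w ⟨h1, h2⟩ ⟨h3, h4⟩
    refine ⟨?_, ?_⟩
    · simp only [QuadraticAlgebra.re_mul]
      exact G.add_mem (G.mul_mem h1 h3) (G.mul_mem (G.mul_mem (G.neg_mem G.one_mem) h2) h4)
    · simp only [QuadraticAlgebra.im_mul]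
      exact G.add_mem (G.add_mem (G.mul_mem h1 h4) (G.mul_mem h2 h3))
        (G.mul_mem (G.mul_mem G.zero_mem h2) h4)
  one_mem' := ⟨G.one_mem, G.zero_mem⟩
  add_mem' := by
    rintro z w ⟨h1, h2⟩ ⟨h3, h4⟩
    exact ⟨G.add_mem h1 h3, G.add_mem h2 h4⟩
  zero_mem' := ⟨G.zero_mem, G.zero_mem⟩
  neg_mem' := by
    rintro z ⟨h1, h2⟩
    exact ⟨G.neg_mem h1, G.neg_mem h2⟩
  inv_mem' := by
    rintro z ⟨h1, h2⟩
    have hn : QuadraticAlgebra.norm z ∈ G := by
      rw [QuadraticAlgebra.norm_def]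
      exact G.sub_mem (G.add_mem (G.mul_mem h1 h1) (G.mul_mem (G.mul_mem G.zero_mem h1) h2))
        (G.mul_mem (G.mul_mem (G.neg_mem G.one_mem) h2) h2)
    have hinv : z⁻¹ = (QuadraticAlgebra.norm z)⁻¹ • star z := rfl
    rw [hinv]
    refine ⟨?_, ?_⟩
    · simp only [QuadraticAlgebra.re_smul, QuadraticAlgebra.re_star, smul_eq_mul]
      exact G.mul_mem (G.inv_mem hn) (G.add_mem h1 (G.mul_mem G.zero_mem h2))
    · simp only [QuadraticAlgebra.im_smul, QuadraticAlgebra.im_star, smul_eq_mul]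
      exact G.mul_mem (G.inv_mem hn) (G.neg_mem h2)

theorem mem_complexSubfield {G : Subfield K} {z : Cx K} :
    z ∈ complexSubfield G ↔ z.re ∈ G ∧ z.im ∈ G := Iff.rfl

/-- The conjugation on `K(i)` as a `K`-algebra automorphism fixes `K`, so it preserves
algebraicity over `ℚ`. -/
theorem isAlgebraic_star {β : Cx K} (h : IsAlgebraic ℚ β) : IsAlgebraic ℚ (star β) := by
  obtain ⟨p, hp, hpβ⟩ := h
  refine ⟨p, hp, ?_⟩
  have h1 := congrArg (starRingEnd (Cx K)) hpβ
  rw [Polynomial.aeval_def, Polynomial.hom_eval₂, map_zero] at h1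
  have h2 : (starRingEnd (Cx K)).comp (algebraMap ℚ (Cx K)) = algebraMap ℚ (Cx K) :=
    Subsingleton.elim _ _
  rw [h2] at h1
  exact h1

theorem isAlgebraic_re_im {β : Cx K} (h : IsAlgebraic ℚ β) :
    IsAlgebraic ℚ β.re ∧ IsAlgebraic ℚ β.im := by
  have hs := isAlgebraic_star h
  have hinj : Function.Injective (algebraMap K (Cx K)) := (algebraMap K (Cx K)).injective
  have h2 : IsAlgebraic ℚ (2 : Cx K) := by
    have := isAlgebraic_algebraMap (A := Cx K) (2 : ℚ)
    simpa using this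
  have him2 : (2 : Cx K).im = 0 := by
    have h20 : (2 : Cx K) = algebraMap K (Cx K) 2 := (map_ofNat _ 2).symm
    rw [h20]; simp
  constructor
  · have h1 : algebraMap K (Cx K) β.re = (β + star β) * (2 : Cx K)⁻¹ := by
      rw [eq_mul_inv_iff_mul_eq₀ (by norm_num)]
      ext
      · simp [mul_two]
      · simp [him2]
    have h3 : IsAlgebraic ℚ (algebraMap K (Cx K) β.re) := by
      rw [h1]; exact (h.add hs).mul h2.inv
    exact (isAlgebraic_algebraMap_iff hinj).mp h3
  · have hω : IsAlgebraic ℚ (QuadraticAlgebra.omega : Cx K) := by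
      refine ⟨X ^ 2 + 1, ?_, ?_⟩
      · intro h0
        have := congrArg (fun p => Polynomial.eval 0 p) h0
        simp at this
      · simp [pow_two, Cx.omega_mul_omega]
    have h1 : algebraMap K (Cx K) β.im =
        (star β - β) * QuadraticAlgebra.omega * (2 : Cx K)⁻¹ := by
      rw [eq_mul_inv_iff_mul_eq₀ (by norm_num)]
      ext
      · simp [mul_two]
      · simp [him2]
    have h3 : IsAlgebraic ℚ (algebraMap K (Cx K) β.im) := by
      rw [h1]; exact ((hs.sub h).mul hω).mul h2.inv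
    exact (isAlgebraic_algebraMap_iff hinj).mp h3

/-- **Density criterion.** -/
theorem approx_of_residue_value [IsRealClosed K] {t : K} (ht : ArchimedeanClass.mk t < 0)
    (halg : Algebra.IsAlgebraic (IntermediateField.adjoin ℚ {t}) K) (F : Subfield K) (htF : t ∈ F)
    (hR : ∀ β : K, IsAlgebraic ℚ β → ∀ δ : K, 0 < δ → ∃ f ∈ F, |β - f| < δ)
    (hV : ∀ c : K, c ≠ 0 → ∃ f ∈ F, ArchimedeanClass.mk f = ArchimedeanClass.mk c) (a : K)
    (δ : K) (hδ : 0 < δ) : ∃ f ∈ F, |a - f| < δ := by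
  obtain ⟨G, hG⟩ := exists_closure F
  have hFG : ∀ f ∈ F, f ∈ G := fun f hf => (hG f).mpr (fun δ hδ => ⟨f, hf, by simpa using hδ⟩)
  have hval : ∀ c : K, c ≠ 0 → ∃ m : ℕ, 0 < m ∧ ∃ k : ℤ,
      m • ArchimedeanClass.mk c = k • ArchimedeanClass.mk t := by
    intro c hc
    obtain ⟨P, hP, hPc⟩ := exists_rel t halg (B := K) c
    exact exists_nsmul_mk_eq ht hc hP hPc
  have hCC := Cx.isAlgClosed (K := K)
  have hchar : CharZero (Cx K) := charZero_of_injective_algebraMap (algebraMap K (Cx K)).injective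
  have hmem : ∀ z : Cx K, z ∈ complexSubfield G := by
    apply mem_of_immediate (C := Cx K) Cx.abv Cx.abv_natCast (complexSubfield G)
    · -- algebraic
      intro z
      have : Algebra.IsAlgebraic K (Cx K) := Algebra.IsAlgebraic.of_finite K (Cx K)
      obtain ⟨P, hP, hPz⟩ := exists_rel t halg (B := Cx K) z
      have htL : algebraMap K (Cx K) t ∈ complexSubfield G := by
        rw [mem_complexSubfield]
        exact ⟨by simpa using hFG t htF, by simp⟩
      set tL : complexSubfield G := ⟨algebraMap K (Cx K) t, htL⟩ with htLdef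
      have hinj : Function.Injective (aeval tL : ℚ[X] →ₐ[ℚ] complexSubfield G) := by
        rw [injective_iff_map_eq_zero]
        intro f hf
        by_contra hne
        obtain ⟨d, hd⟩ := exists_mk_aeval ht hne
        have h1 : aeval t f = 0 := by
          have h2 : ((aeval tL f : complexSubfield G) : Cx K) = algebraMap K (Cx K) (aeval t f) := by
            have h3 : ((aeval tL f : complexSubfield G) : Cx K) =
                (complexSubfield G).subtype (aeval tL f) := rfl
            rw [h3, Polynomial.aeval_def, Polynomial.hom_eval₂, Polynomial.aeval_def,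
              Polynomial.hom_eval₂]
            congr 1
          rw [hf] at h2
          have h4 : algebraMap K (Cx K) (aeval t f) = 0 := h2.symm
          simpa using h4
        rw [h1, ArchimedeanClass.mk_zero, ← ArchimedeanClass.mk_pow] at hd
        have h5 : t ^ d = 0 := ArchimedeanClass.top_eq_mk_iff.mp hd
        have h6 : t = 0 := pow_eq_zero_iff_of_ne h5
        rw [h6] at ht
        simp at ht
      refine ⟨P.map (aeval tL : ℚ[X] →ₐ[ℚ] complexSubfield G).toRingHom, ?_, ?_⟩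
      · exact (Polynomial.map_ne_zero_iff hinj).mpr hP
      · rw [Polynomial.aeval_def, Polynomial.eval₂_map]
        have : (algebraMap (complexSubfield G) (Cx K)).comp
            (aeval tL : ℚ[X] →ₐ[ℚ] complexSubfield G).toRingHom =
            (aeval (algebraMap K (Cx K) t) : ℚ[X] →ₐ[ℚ] Cx K).toRingHom := by
          apply Polynomial.ringHom_ext
          · intro a
            simp
          · simp [tL]
            rfl
        rw [this]
        exact hPz
    · -- closed
      intro z hz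
      rw [mem_complexSubfield]
      constructor
      · rw [hG]
        intro δ hδ
        obtain ⟨b, hb, hb'⟩ := hz (δ / 2) (by linarith)
        rw [mem_complexSubfield, hG] at hb
        obtain ⟨f, hf, hf'⟩ := hb.1 (δ / 2) (by linarith)
        refine ⟨f, hf, ?_⟩
        have h1 := Cx.abs_re_le (z - b)
        rw [QuadraticAlgebra.re_sub] at h1
        calc |z.re - f| ≤ |z.re - b.re| + |b.re - f| := abs_sub_le _ _ _
          _ < δ := by linarith
      · rw [hG]
        intro δ hδ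
        obtain ⟨b, hb, hb'⟩ := hz (δ / 2) (by linarith)
        rw [mem_complexSubfield, hG b.im] at hb
        obtain ⟨f, hf, hf'⟩ := hb.2 (δ / 2) (by linarith)
        refine ⟨f, hf, ?_⟩
        have h1 := Cx.abs_im_le (z - b)
        rw [QuadraticAlgebra.im_sub] at h1
        calc |z.im - f| ≤ |z.im - b.im| + |b.im - f| := abs_sub_le _ _ _
          _ < δ := by linarith
    · -- immediate
      intro z hz
      obtain ⟨f, hf, hfv⟩ := hV (Cx.abv z) (Cx.abv.ne_zero_iff.mpr hz)
      have hf0 : f ≠ 0 := by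
        rintro rfl
        rw [ArchimedeanClass.mk_zero, ArchimedeanClass.top_eq_mk_iff] at hfv
        exact hz (Cx.abv.eq_zero.mp hfv)
      set fC : Cx K := algebraMap K (Cx K) f with hfC
      have hfC0 : fC ≠ 0 := by rw [hfC]; simpa using hf0
      have hszf : sz fC = sz z := by rw [hfC, sz_algebraMap, hfv]; rfl
      have hw : 0 ≤ sz (z / fC) := by
        have h1 : sz (z / fC) = ArchimedeanClass.mk (Cx.abv z / Cx.abv fC) := by
          rw [sz, map_div₀]
        have h2 : Cx.abv fC ≠ 0 := Cx.abv.ne_zero_iff.mpr hfC0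
        rw [h1, ArchimedeanClass.mk_div]
        have h3 : ArchimedeanClass.mk (Cx.abv fC) = ArchimedeanClass.mk (Cx.abv z) := hszf
        rw [h3, ← ArchimedeanClass.mk_div, div_self (Cx.abv.ne_zero_iff.mpr hz),
          ArchimedeanClass.mk_one]
      have : Algebra.IsAlgebraic K (Cx K) := Algebra.IsAlgebraic.of_finite K (Cx K)
      obtain ⟨P, hP, hPz⟩ := exists_rel t halg (B := Cx K) (z / fC)
      obtain ⟨β, hβ, hβ'⟩ := exists_algebraic_near ht hw hP hPz
      have hβri := isAlgebraic_re_im hβ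
      have hβL : β ∈ complexSubfield G := by
        rw [mem_complexSubfield, hG, hG]
        exact ⟨hR _ hβri.1, hR _ hβri.2⟩
      have hfL : fC ∈ complexSubfield G := by
        rw [mem_complexSubfield, hfC]
        exact ⟨by simpa using hFG f hf, by simp⟩
      refine ⟨fC * β, (complexSubfield G).mul_mem hfL hβL, ?_⟩
      intro n
      have h1 : z - fC * β = fC * (z / fC - β) := by field_simp
      have h2 : Cx.abv (z - fC * β) = Cx.abv fC * Cx.abv (z / fC - β) := by
        rw [h1, map_mul]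
      -- `z/f - β` infinitesimal, and `|f| ≤ N |z|`
      have h3 : ArchimedeanClass.mk (Cx.abv z) ≤ ArchimedeanClass.mk (Cx.abv fC) := hszf.ge
      rw [ArchimedeanClass.mk_le_mk] at h3
      obtain ⟨N, hN⟩ := h3
      rw [nsmul_eq_mul, abs_of_nonneg (Cx.abv.nonneg _), abs_of_nonneg (Cx.abv.nonneg _)] at hN
      have h4 := zero_lt_mk_iff.mp hβ' (n * N)
      rw [abs_of_nonneg (Cx.abv.nonneg _)] at h4
      push_cast at h4
      have hzpos : 0 < Cx.abv z := Cx.abv.pos hz
      rw [h2]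
      calc (n : K) * (Cx.abv fC * Cx.abv (z / fC - β))
          ≤ (n : K) * ((N * Cx.abv z) * Cx.abv (z / fC - β)) := by
            apply mul_le_mul_of_nonneg_left _ (Nat.cast_nonneg n)
            exact mul_le_mul_of_nonneg_right hN (Cx.abv.nonneg _)
        _ = ((n * N : K) * Cx.abv (z / fC - β)) * Cx.abv z := by ring
        _ < 1 * Cx.abv z := mul_lt_mul_of_pos_right h4 hzpos
        _ = Cx.abv z := one_mul _
    · -- rank one
      intro θ hθ hθ' δ hδ
      have h1 : 0 < ArchimedeanClass.mk θ := by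
        rw [zero_lt_mk_iff]
        intro n
        rw [abs_of_pos hθ]; exact hθ' n
      obtain ⟨n, hn⟩ := exists_pow_lt_of_infinitesimal ht hval h1 hδ.ne'
      refine ⟨n, ?_⟩
      rw [ArchimedeanClass.mk_lt_mk] at hn
      have := hn 1
      rwa [one_smul, abs_of_pos hδ, abs_of_pos (pow_pos hθ n)] at this
  have h1 := hmem (algebraMap K (Cx K) a)
  rw [mem_complexSubfield] at h1
  have h2 : a ∈ G := by simpa using h1.1
  exact (hG a).mp h2 δ hδ

end Pool.Agent.RealClosed
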