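import Pool.Agent.RealClosed.Tower

/-!
# Existence of a real closed field algebraic over `ℚ(t)` with `t` infinitely large
-/

open Polynomial ArchimedeanClass Filter

namespace Pool.Agent.RealClosed

theorem real_exists_root_of_odd {f : ℝ[X]} (hf : Odd f.natDegree) : ∃ x, f.eval x = 0 := by
  have hdeg : 0 < f.degree := by
    rw [← Polynomial.natDegree_pos_iff_degree_pos]
    exact hf.pos
  -- WLOG positive leading coefficient
  have key : ∀ g : ℝ[X], Odd g.natDegree → 0 < g.leadingCoeff → ∃ x, g.eval x = 0 := by
    intro g hg hlc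
    have hgdeg : 0 < g.degree := by
      rw [← Polynomial.natDegree_pos_iff_degree_pos]
      exact hg.pos
    have h1 := g.tendsto_atTop_of_leadingCoeff_nonneg hgdeg hlc.le
    have hcdeg : (g.comp (-X)).natDegree = g.natDegree := by
      rw [Polynomial.natDegree_comp]; simp
    have hclc : (g.comp (-X)).leadingCoeff = -g.leadingCoeff := by
      rw [Polynomial.leadingCoeff_comp (by simp)]
      simp [hg.neg_one_pow]
    have h2 := (g.comp (-X)).tendsto_atBot_of_leadingCoeff_nonpos (by
      rw [← Polynomial.natDegree_pos_iff_degree_pos, hcdeg]; exact hg.pos)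
      (by rw [hclc]; linarith)
    obtain ⟨a, ha⟩ := (h1.eventually (eventually_gt_atTop 0)).exists
    obtain ⟨b, hb⟩ := (h2.eventually (eventually_lt_atBot 0)).exists
    rw [eval_comp] at hb
    simp only [eval_neg, eval_X] at hb
    have hcont : Continuous fun x => g.eval x := g.continuous
    have h3 : (0 : ℝ) ∈ Set.range (fun x => g.eval x) := by
      apply mem_range_of_exists_le_of_exists_ge hcont ⟨-b, hb.le⟩ ⟨a, ha.le⟩
    obtain ⟨x, hx⟩ := h3
    exact ⟨x, hx⟩
  rcases lt_or_gt_of_ne (Polynomial.leadingCoeff_ne_zero.mpr (Polynomial.ne_zero_of_degree_gt hdeg))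
    with h | h
  · obtain ⟨x, hx⟩ := key (-f) (by rwa [natDegree_neg]) (by rw [leadingCoeff_neg]; linarith)
    exact ⟨x, by simpa using hx⟩
  · exact key f hf h

theorem hyperreal_exists_sqrt {x : Hyperreal} (hx : 0 ≤ x) : ∃ y : Hyperreal, y * y = x := by
  obtain ⟨f, rfl⟩ := Hyperreal.ofSeq_surjective x
  have h0 : ∀ᶠ n in hyperfilter ℕ, 0 ≤ f n := by
    have : Hyperreal.ofSeq (fun _ => 0) ≤ Hyperreal.ofSeq f := hx
    exact Hyperreal.ofSeq_le_ofSeq.mp this
  refine ⟨Hyperreal.ofSeq (fun n => Real.sqrt (f n)), ?_⟩
  change Hyperreal.ofSeq (fun n => Real.sqrt (f n) * Real.sqrt (f n)) = Hyperreal.ofSeq f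
  apply Quotient.sound
  filter_upwards [h0] with n hn
  exact Real.mul_self_sqrt hn

theorem hyperreal_exists_root {f : Hyperreal[X]} (hf : Odd f.natDegree) : ∃ x, f.eval x = 0 := by
  classical
  have hf0 : f ≠ 0 := by
    rintro rfl
    simp at hf
  choose c hc using fun i => Hyperreal.ofSeq_surjective (f.coeff i)
  set d := f.natDegree with hd
  let g : ℕ → ℝ[X] := fun n => ∑ i ∈ Finset.range (d + 1), Polynomial.C (c i n) * X ^ i
  have hgc : ∀ n, (g n).coeff d = c d n := by
    intro n
    simp [g, Polynomial.finsetSum_coeff, Polynomial.coeff_X_pow]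
  have hgd : ∀ n, (g n).natDegree ≤ d := by
    intro n
    apply Polynomial.natDegree_sum_le_of_forall_le
    intro i hi
    refine (Polynomial.natDegree_C_mul_X_pow_le _ _).trans ?_
    have := Finset.mem_range.mp hi
    omega
  have hlc : ∀ᶠ n in hyperfilter ℕ, c d n ≠ 0 := by
    have h1 : f.coeff d ≠ 0 := by
      rw [hd]
      exact Polynomial.leadingCoeff_ne_zero.mpr hf0
    rw [← hc d] at h1
    by_contra hcon
    rw [Ultrafilter.eventually_not] at hcon
    push Not at hcon
    apply h1
    apply Quotient.sound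
    exact hcon
  have hroot : ∀ᶠ n in hyperfilter ℕ, ∃ x, (g n).eval x = 0 := by
    filter_upwards [hlc] with n hn
    apply real_exists_root_of_odd
    have : (g n).natDegree = d := by
      apply le_antisymm (hgd n)
      apply Polynomial.le_natDegree_of_ne_zero
      rw [hgc]; exact hn
    rw [this]; exact hf
  let x : ℕ → ℝ := fun n => if h : ∃ x, (g n).eval x = 0 then h.choose else 0
  have hx : ∀ᶠ n in hyperfilter ℕ, (g n).eval (x n) = 0 := by
    filter_upwards [hroot] with n hn
    have : x n = hn.choose := by simp only [x]; rw [dif_pos hn]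
    rw [this]; exact hn.choose_spec
  refine ⟨Hyperreal.ofSeq x, ?_⟩
  rw [Polynomial.eval_eq_sum_range]
  have h2 : ∀ s : Finset ℕ, ∑ i ∈ s, f.coeff i * Hyperreal.ofSeq x ^ i =
      Hyperreal.ofSeq (fun n => ∑ i ∈ s, c i n * x n ^ i) := by
    intro s
    induction s using Finset.induction_on with
    | empty => simp; rfl
    | insert i s hi ih =>
      rw [Finset.sum_insert hi, ih, ← hc i]
      have : (fun n => ∑ i ∈ insert i s, c i n * x n ^ i) =
          (fun n => c i n * x n ^ i + ∑ i ∈ s, c i n * x n ^ i) := by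
        funext n; rw [Finset.sum_insert hi]
      rw [this]
      rfl
  rw [h2]
  apply Quotient.sound
  filter_upwards [hx] with n hn
  rw [← hn]
  simp only [g, Polynomial.eval_finsetSum, eval_mul, eval_C, eval_pow, eval_X]
  rfl

/-- A real closure of `ℚ(t)` inside the hyperreals. -/
theorem exists_real_closure :
    ∃ (K : Type) (_ : Field K) (_ : LinearOrder K) (_ : IsStrictOrderedRing K) (t : K),
      IsRealClosed K ∧ (∀ n : ℕ, (n : K) < t) ∧
      Algebra.IsAlgebraic (IntermediateField.adjoin ℚ {t}) K := by
  let A : IntermediateField ℚ Hyperreal := IntermediateField.adjoin ℚ {Hyperreal.omega}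
  let K : IntermediateField A Hyperreal := algebraicClosure A Hyperreal
  have hmem : ∀ x : Hyperreal, x ∈ K ↔ IsAlgebraic A x := fun x => mem_algebraicClosure_iff
  let t : K := ⟨Hyperreal.omega, (hmem _).mpr (isAlgebraic_algebraMap
    (⟨Hyperreal.omega, IntermediateField.mem_adjoin_simple_self ℚ _⟩ : A))⟩
  have hord : IsStrictOrderedRing K := inferInstance
  refine ⟨K, inferInstance, inferInstance, hord, t, ?_, ?_, ?_⟩
  · -- real closed
    apply IsRealClosed.of_linearOrderedField
    · intro x hx
      obtain ⟨y, hy⟩ := hyperreal_exists_sqrt (x := (x : Hyperreal)) hx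
      have hyK : y ∈ K := by
        rw [hmem]
        have h1 : IsAlgebraic A (y ^ 2) := by
          rw [pow_two, hy]; exact (hmem _).mp x.2
        exact IsAlgebraic.of_pow (by norm_num) h1
      refine ⟨⟨y, hyK⟩, ?_⟩
      apply Subtype.ext
      exact hy.symm
    · intro f hf
      have hfd : (f.map (algebraMap K Hyperreal)).natDegree = f.natDegree :=
        Polynomial.natDegree_map _
      obtain ⟨y, hy⟩ := hyperreal_exists_root (f := f.map (algebraMap K Hyperreal))
        (by rw [hfd]; exact hf)
      have hf0 : f ≠ 0 := by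
        rintro rfl
        simp at hf
      have hyalg : IsAlgebraic K y := ⟨f, hf0, by
        rw [Polynomial.eval_map] at hy
        exact hy⟩
      have hKA : Algebra.IsAlgebraic A K := inferInstance
      have hyA : IsAlgebraic A y := hyalg.restrictScalars A
      have hyK : y ∈ K := (hmem _).mpr hyA
      refine ⟨⟨y, hyK⟩, ?_⟩
      rw [Polynomial.IsRoot]
      apply Subtype.ext
      rw [Polynomial.eval_map] at hy
      have h1 : (algebraMap K Hyperreal) (f.eval ⟨y, hyK⟩) = 0 := by
        rw [← Polynomial.eval₂_at_apply]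
        exact hy
      exact h1
  · intro n
    have h1 : ((n : ℝ) : Hyperreal) < Hyperreal.omega := Hyperreal.coe_lt_omega n
    have h2 : ((n : K) : Hyperreal) = ((n : ℝ) : Hyperreal) := by
      have h4 : ((n : K) : Hyperreal) = (n : Hyperreal) := by simp
      have h5 : ((n : ℝ) : Hyperreal) = Hyperreal.coeRingHom (n : ℝ) := rfl
      rw [h4, h5, map_natCast]
    have h3 : ((n : K) : Hyperreal) < (t : Hyperreal) := by
      rw [h2]; exact h1
    exact h3
  · -- algebraic
    constructor
    intro x
    obtain ⟨p, hp, hpx⟩ := (hmem _).mp x.2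
    -- lift `p` to the small field inside `K`
    let E : IntermediateField ℚ K := IntermediateField.adjoin ℚ {t}
    let vK : K →ₐ[ℚ] Hyperreal := (IntermediateField.val K).restrictScalars ℚ
    have hE : E.map vK = A := by
      rw [IntermediateField.adjoin_map]
      simp [vK, t, A]
    have hmemA : ∀ y : E, vK y ∈ A := by
      intro y
      have h1 : vK y ∈ E.map vK := ⟨y, y.2, rfl⟩
      exact hE.le h1
    let ψ : E →+* A := (vK.toRingHom.comp (algebraMap E K)).codRestrict A.toSubring hmemA
    have hψ : Function.Surjective ψ := by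
      intro a
      have h1 : (a : Hyperreal) ∈ E.map vK := hE.ge a.2
      obtain ⟨y, hy, hya⟩ := h1
      refine ⟨⟨y, hy⟩, ?_⟩
      apply Subtype.ext
      exact hya
    obtain ⟨q, hq⟩ := Polynomial.map_surjective ψ hψ p
    refine ⟨q, ?_, ?_⟩
    · rintro rfl
      apply hp
      rw [← hq, Polynomial.map_zero]
    · apply Subtype.ext
      rw [← hq, Polynomial.aeval_def, Polynomial.eval₂_map] at hpx
      have h1 : vK (aeval x q) = 0 := by
        rw [Polynomial.aeval_def]
        have h2 := Polynomial.hom_eval₂ q (algebraMap E K) vK.toRingHom x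
        have h3 : vK (Polynomial.eval₂ (algebraMap E K) x q) =
            vK.toRingHom (Polynomial.eval₂ (algebraMap E K) x q) := rfl
        rw [h3, h2]
        exact hpx
      exact h1

end Pool.Agent.RealClosed
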