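import Pool.Agent.RealClosed.Complexify

/-!
# Absolute value on `K(i)` and the intermediate value theorem for polynomials over `K`
-/

open Polynomial

namespace Pool.Agent.RealClosed

universe u

variable {K : Type u} [Field K] [LinearOrder K] [IsStrictOrderedRing K]

/-- The modulus `√(x² + y²)` on `K(i)`. -/
noncomputable def Cx.modulus [IsRealClosed K] (z : Cx K) : K :=
  (exists_sqrt (x := z.re * z.re + z.im * z.im)
    (by nlinarith [mul_self_nonneg z.re, mul_self_nonneg z.im])).choose

theorem Cx.modulus_nonneg [IsRealClosed K] (z : Cx K) : 0 ≤ z.modulus :=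
  (exists_sqrt (x := z.re * z.re + z.im * z.im)
    (by nlinarith [mul_self_nonneg z.re, mul_self_nonneg z.im])).choose_spec.1

theorem Cx.modulus_mul_self [IsRealClosed K] (z : Cx K) :
    z.modulus * z.modulus = z.re * z.re + z.im * z.im :=
  (exists_sqrt (x := z.re * z.re + z.im * z.im)
    (by nlinarith [mul_self_nonneg z.re, mul_self_nonneg z.im])).choose_spec.2

theorem eq_of_mul_self_eq {a b : K} (ha : 0 ≤ a) (hb : 0 ≤ b) (h : a * a = b * b) : a = b := by
  have h1 : (a - b) * (a + b) = 0 := by linear_combination h
  rcases mul_eq_zero.mp h1 with h2 | h2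
  · linarith
  · have : a = 0 := by linarith
    have : b = 0 := by linarith
    linarith

/-- The modulus as an absolute value. -/
noncomputable def Cx.abv [IsRealClosed K] : AbsoluteValue (Cx K) K where
  toFun z := z.modulus
  map_mul' z w := by
    apply eq_of_mul_self_eq (Cx.modulus_nonneg _)
      (mul_nonneg (Cx.modulus_nonneg _) (Cx.modulus_nonneg _))
    rw [Cx.modulus_mul_self]
    have : z.modulus * w.modulus * (z.modulus * w.modulus) =
      (z.modulus * z.modulus) * (w.modulus * w.modulus) := by ring
    rw [this, Cx.modulus_mul_self, Cx.modulus_mul_self]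
    simp only [QuadraticAlgebra.re_mul, QuadraticAlgebra.im_mul]
    ring
  nonneg' z := Cx.modulus_nonneg z
  eq_zero' z := by
    constructor
    · intro h
      have h1 := Cx.modulus_mul_self z
      rw [h] at h1
      have hx : z.re * z.re = 0 := by nlinarith [mul_self_nonneg z.re, mul_self_nonneg z.im]
      have hy : z.im * z.im = 0 := by nlinarith [mul_self_nonneg z.re, mul_self_nonneg z.im]
      ext
      · simpa using hx
      · simpa using hy
    · intro h
      have h1 := Cx.modulus_mul_self z
      rw [h] at h1 ⊢
      simp only [QuadraticAlgebra.re_zero, QuadraticAlgebra.im_zero, mul_zero, add_zero] at h1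
      exact mul_self_eq_zero.mp h1
  add_le' z w := by
    apply le_of_sq_le_sq _ (add_nonneg (Cx.modulus_nonneg _) (Cx.modulus_nonneg _))
    have h1 := Cx.modulus_mul_self z
    have h2 := Cx.modulus_mul_self w
    have h3 := Cx.modulus_mul_self (z + w)
    simp only [QuadraticAlgebra.re_add, QuadraticAlgebra.im_add] at h3
    have h4 : z.re * w.re + z.im * w.im ≤ z.modulus * w.modulus := by
      apply le_of_sq_le_sq _ (mul_nonneg (Cx.modulus_nonneg _) (Cx.modulus_nonneg _))
      have : (z.modulus * w.modulus) ^ 2 = (z.modulus * z.modulus) * (w.modulus * w.modulus) := by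
        ring
      rw [this, h1, h2]
      nlinarith [sq_nonneg (z.re * w.im - z.im * w.re)]
    nlinarith

theorem Cx.abv_mul_self [IsRealClosed K] (z : Cx K) :
    Cx.abv z * Cx.abv z = z.re * z.re + z.im * z.im := Cx.modulus_mul_self z

theorem Cx.abv_algebraMap [IsRealClosed K] (x : K) : Cx.abv (algebraMap K (Cx K) x) = |x| := by
  apply eq_of_mul_self_eq (Cx.abv.nonneg _) (abs_nonneg x)
  rw [Cx.abv_mul_self, abs_mul_abs_self]
  simp

theorem Cx.abs_re_le [IsRealClosed K] (z : Cx K) : |z.re| ≤ Cx.abv z := by
  apply abs_le_of_sq_le_sq _ (Cx.abv.nonneg _)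
  have := Cx.abv_mul_self z
  nlinarith [mul_self_nonneg z.im]

theorem Cx.abs_im_le [IsRealClosed K] (z : Cx K) : |z.im| ≤ Cx.abv z := by
  apply abs_le_of_sq_le_sq _ (Cx.abv.nonneg _)
  have := Cx.abv_mul_self z
  nlinarith [mul_self_nonneg z.re]

theorem Cx.abv_le [IsRealClosed K] (z : Cx K) : Cx.abv z ≤ |z.re| + |z.im| := by
  apply le_of_sq_le_sq _ (add_nonneg (abs_nonneg _) (abs_nonneg _))
  have := Cx.abv_mul_self z
  have h1 := abs_mul_abs_self z.re
  have h2 := abs_mul_abs_self z.im
  nlinarith [mul_nonneg (abs_nonneg z.re) (abs_nonneg z.im)]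

theorem Cx.abv_natCast [IsRealClosed K] (n : ℕ) : Cx.abv (n : Cx K) = n := by
  have := Cx.abv_algebraMap (n : K)
  rw [map_natCast] at this
  rw [this]; exact abs_of_nonneg (Nat.cast_nonneg n)

/-- Sign change gives a root strictly between. -/
theorem exists_root_of_mul_neg [IsRealClosed K] (n : ℕ) : ∀ (p : K[X]), p.natDegree ≤ n →
    ∀ a b : K, a < b → p.eval a * p.eval b < 0 → ∃ c, a < c ∧ c < b ∧ p.eval c = 0 := by
  induction n with
  | zero =>
    intro p hp a b _ h
    rw [Polynomial.eq_C_of_natDegree_le_zero hp] at h
    simp only [eval_C] at h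
    nlinarith [mul_self_nonneg (p.coeff 0)]
  | succ n ih =>
    intro p hp a b hab h
    by_cases hp0 : p.natDegree ≤ n
    · exact ih p hp0 a b hab h
    have hpne : p ≠ 0 := by rintro rfl; simp at h
    have hdeg : (p.map (algebraMap K (Cx K))).degree ≠ 0 := by
      rw [Polynomial.degree_map]
      intro h0
      have h01 : p.natDegree = 0 := Polynomial.natDegree_eq_of_degree_eq_some h0
      omega
    have := Cx.isAlgClosed (K := K)
    obtain ⟨z, hz⟩ := IsAlgClosed.exists_root _ hdeg
    rw [Polynomial.IsRoot, eval_map] at hz
    by_cases him : z.im = 0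
    · have hzr : z = algebraMap K (Cx K) z.re := by
        ext
        · simp
        · simp [him]
      rw [hzr, Polynomial.eval₂_at_apply] at hz
      have hroot : p.eval z.re = 0 := by
        apply (algebraMap K (Cx K)).injective
        rw [hz, map_zero]
      set c := z.re with hc
      have ha : a ≠ c := by rintro rfl; rw [hroot] at h; simp at h
      have hb : b ≠ c := by rintro rfl; rw [hroot] at h; simp at h
      by_cases hcab : a < c ∧ c < b
      · exact ⟨c, hcab.1, hcab.2, hroot⟩
      obtain ⟨q, hq⟩ := Polynomial.dvd_iff_isRoot.mpr hroot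
      have hqd : q.natDegree ≤ n := by
        have hqne : q ≠ 0 := by rintro rfl; rw [mul_zero] at hq; exact hpne hq
        have := Polynomial.natDegree_mul (Polynomial.X_sub_C_ne_zero c) hqne
        rw [← hq, Polynomial.natDegree_X_sub_C] at this
        omega
      have hpos : 0 < (a - c) * (b - c) := by
        rcases lt_or_gt_of_ne ha with h1 | h1
        · have h2 : b < c := by
            rcases lt_or_gt_of_ne hb with h3 | h3
            · exact h3
            · exact absurd ⟨h1, h3⟩ hcab
          nlinarith
        · have h2 : c < b := by linarith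
          nlinarith
      rw [hq] at h
      simp only [eval_mul, eval_sub, eval_X, eval_C] at h
      obtain ⟨d, h1, h2, h3⟩ := ih q hqd a b hab (by
        by_contra hcon
        have : 0 ≤ q.eval a * q.eval b := not_lt.mp hcon
        nlinarith)
      exact ⟨d, h1, h2, by rw [hq]; simp [h3]⟩
    · -- quadratic factor
      set x := z.re with hx
      set y := z.im with hy
      set Q : K[X] := X ^ 2 - Polynomial.C (2 * x) * X + Polynomial.C (x * x + y * y) with hQ
      have hQmonic : Q.Monic := by
        rw [hQ]; monicity!
      have hQdeg : Q.natDegree = 2 := by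
        rw [hQ]; compute_degree!
      have hQz : Q.eval₂ (algebraMap K (Cx K)) z = 0 := by
        rw [hQ]
        simp only [eval₂_add, eval₂_sub, eval₂_pow, eval₂_X, eval₂_mul, eval₂_C]
        ext
        · simp [pow_two]; ring
        · simp [pow_two]; ring
      have hmod : p %ₘ Q = 0 := by
        have h1 : (p %ₘ Q).eval₂ (algebraMap K (Cx K)) z = 0 := by
          have := congrArg (Polynomial.eval₂ (algebraMap K (Cx K)) z)
            (Polynomial.modByMonic_add_div p Q)
          rw [eval₂_add, eval₂_mul, hQz, hz, zero_mul, add_zero] at this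
          exact this
        have h2 : (p %ₘ Q).natDegree < 2 := by
          rw [← hQdeg]
          exact Polynomial.natDegree_modByMonic_lt p hQmonic (by
            intro h0; rw [h0] at hQdeg; simp at hQdeg)
        have h3 : p %ₘ Q = Polynomial.C ((p %ₘ Q).coeff 1) * X + Polynomial.C ((p %ₘ Q).coeff 0) :=
          Polynomial.eq_X_add_C_of_natDegree_le_one (by omega)
        rw [h3] at h1 ⊢
        simp only [eval₂_add, eval₂_mul, eval₂_C, eval₂_X] at h1
        have h4 := congrArg QuadraticAlgebra.im h1
        have h5 := congrArg QuadraticAlgebra.re h1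
        simp [-Polynomial.coeff_zero] at h4 h5
        have h6 : (p %ₘ Q).coeff 1 = 0 := by
          rcases h4 with h4 | h4
          · exact h4
          · exact absurd h4 him
        rw [h6] at h5 ⊢
        rw [zero_mul, zero_add] at h5
        rw [h5]; simp
      have hdvd : Q ∣ p := (Polynomial.modByMonic_eq_zero_iff_dvd hQmonic).mp hmod
      obtain ⟨q, hq⟩ := hdvd
      have hQpos : ∀ t : K, 0 < Q.eval t := by
        intro t
        rw [hQ]
        simp only [eval_add, eval_sub, eval_pow, eval_X, eval_mul, eval_C]
        have : 0 < y * y := mul_self_pos.mpr him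
        nlinarith [sq_nonneg (t - x)]
      have hqd : q.natDegree ≤ n := by
        have hqne : q ≠ 0 := by rintro rfl; rw [mul_zero] at hq; exact hpne hq
        have := Polynomial.natDegree_mul hQmonic.ne_zero hqne
        rw [← hq, hQdeg] at this
        omega
      rw [hq, eval_mul, eval_mul] at h
      obtain ⟨d, h1, h2, h3⟩ := ih q hqd a b hab (by
        by_contra hcon
        have h0 : 0 ≤ q.eval a * q.eval b := not_lt.mp hcon
        have := mul_pos (hQpos a) (hQpos b)
        nlinarith)
      exact ⟨d, h1, h2, by rw [hq]; simp [h3]⟩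

end Pool.Agent.RealClosed
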