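import Pool.Agent.RealClosed.Density

/-!
# The basic step of the tower
-/

open Polynomial ArchimedeanClass

namespace Pool.Agent.RealClosed

universe u v

section poly

variable {O : Type u} [CommRing O] [IsDomain O] [Algebra ℚ O]

/-- Newton polynomial: `ρ` fixes `β` to second order. -/
theorem exists_newtonPoly {β : O} (hβ : IsIntegral ℚ β) :
    ∃ ρ : ℚ[X], (X - C β) ^ 2 ∣ ρ.map (algebraMap ℚ O) - C β := by
  set p := minpoly ℚ β with hp
  have hirr := minpoly.irreducible hβ
  have hsep : p.Separable := hirr.separable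
  obtain ⟨w, u, hwu⟩ := hsep
  have hroot : (p.map (algebraMap ℚ O)).IsRoot β := by
    rw [Polynomial.IsRoot, Polynomial.eval_map]; exact minpoly.aeval ℚ β
  obtain ⟨q, hq⟩ := Polynomial.dvd_iff_isRoot.mpr hroot
  have hder : (derivative p).map (algebraMap ℚ O) = q + (X - C β) * derivative q := by
    rw [← Polynomial.derivative_map, hq, Polynomial.derivative_mul]
    simp
  have hwu' := congrArg (Polynomial.map (algebraMap ℚ O)) hwu
  rw [Polynomial.map_add, Polynomial.map_mul, Polynomial.map_mul, hder, hq, Polynomial.map_one]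
    at hwu'
  refine ⟨X - p * u, ?_⟩
  rw [Polynomial.map_sub, Polynomial.map_mul, Polynomial.map_X, hq]
  refine ⟨w.map (algebraMap ℚ O) * q + u.map (algebraMap ℚ O) * derivative q, ?_⟩
  linear_combination (-(X - C β)) * hwu'

theorem exists_highOrder {β : O} (hβ : IsIntegral ℚ β) (k : ℕ) :
    ∃ ρ : ℚ[X], (X - C β) ^ (k + 1) ∣ ρ.map (algebraMap ℚ O) - C β := by
  induction k with
  | zero => exact ⟨X, by simp⟩
  | succ k ih =>
    obtain ⟨ρ, hρ⟩ := ih
    obtain ⟨ν, hν⟩ := exists_newtonPoly hβ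
    refine ⟨ν.comp ρ, ?_⟩
    rw [Polynomial.map_comp]
    obtain ⟨s, hs⟩ := hν
    have h1 : (ν.map (algebraMap ℚ O)).comp (ρ.map (algebraMap ℚ O)) - C β =
        (ρ.map (algebraMap ℚ O) - C β) ^ 2 * s.comp (ρ.map (algebraMap ℚ O)) := by
      have h2 := congrArg (fun f => f.comp (ρ.map (algebraMap ℚ O))) hs
      simp only [sub_comp, C_comp, mul_comp, pow_comp, X_comp] at h2
      exact h2
    rw [h1]
    have h3 : (X - C β) ^ (k + 1 + 1) ∣ (ρ.map (algebraMap ℚ O) - C β) ^ 2 := by
      have h4 : ((X - C β) ^ (k + 1)) ^ 2 ∣ (ρ.map (algebraMap ℚ O) - C β) ^ 2 :=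
        pow_dvd_pow_of_dvd hρ 2
      refine dvd_trans ?_ h4
      rw [← pow_mul]
      exact pow_dvd_pow _ (by omega)
    exact dvd_mul_of_dvd_left h3 _

end poly

variable {K : Type u} [Field K] [LinearOrder K] [IsStrictOrderedRing K]

/-- The ring of finite elements, as a `ℚ`-subalgebra. -/
def finSub (K : Type u) [Field K] [LinearOrder K] [IsStrictOrderedRing K] : Subalgebra ℚ K where
  carrier := {x | 0 ≤ ArchimedeanClass.mk x}
  mul_mem' := by
    intro a b ha hb
    change 0 ≤ ArchimedeanClass.mk (a * b)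
    rw [ArchimedeanClass.mk_mul]
    exact add_nonneg ha hb
  add_mem' := by
    intro a b ha hb
    have ha' : 0 ≤ ArchimedeanClass.mk a := ha
    have hb' : 0 ≤ ArchimedeanClass.mk b := hb
    exact (le_min ha' hb').trans (ArchimedeanClass.min_le_mk_add a b)
  algebraMap_mem' := by
    intro q
    change 0 ≤ ArchimedeanClass.mk (algebraMap ℚ K q)
    by_cases hq : q = 0
    · rw [hq, map_zero, ArchimedeanClass.mk_zero]; exact le_top
    · rw [mk_ratCast_of_ne hq]

theorem mem_finSub {x : K} : x ∈ finSub K ↔ 0 ≤ ArchimedeanClass.mk x := Iff.rfl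

theorem mk_nonneg_of_isAlgebraic [IsRealClosed K] {β : K} (h : IsAlgebraic ℚ β) :
    0 ≤ ArchimedeanClass.mk β := by
  by_cases h0 : β = 0
  · rw [h0, ArchimedeanClass.mk_zero]; exact le_top
  · rw [mk_of_isAlgebraic h h0]

theorem mk_eval_sub (h : (finSub K)[X]) (y z : finSub K) :
    ArchimedeanClass.mk ((y : K) - z) ≤
      ArchimedeanClass.mk (((h.eval y : finSub K) : K) - (h.eval z : finSub K)) := by
  obtain ⟨c, hc⟩ := Polynomial.sub_dvd_eval_sub y z h
  have h1 : ((h.eval y : finSub K) : K) - (h.eval z : finSub K) = ((y : K) - z) * c := by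
    have := congrArg (fun a : finSub K => (a : K)) hc
    simpa using this
  rw [h1, ArchimedeanClass.mk_mul]
  exact le_add_of_nonneg_right c.2

theorem coe_eval_map (r : ℚ[X]) (y : finSub K) :
    (((r.map (algebraMap ℚ (finSub K))).eval y : finSub K) : K) = aeval (y : K) r := by
  rw [Polynomial.eval_map, ← Polynomial.aeval_def]
  have : ((aeval y r : finSub K) : K) = (finSub K).val (aeval y r) := rfl
  rw [this, ← AlgHom.comp_apply]
  congr 1
  apply Polynomial.algHom_ext
  simp

theorem isIntegral_mk [IsRealClosed K] {β : K} (h : IsAlgebraic ℚ β) :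
    IsIntegral ℚ (⟨β, mk_nonneg_of_isAlgebraic h⟩ : finSub K) := by
  have hinj : Function.Injective (algebraMap (finSub K) K) := Subtype.val_injective
  have := (isIntegral_algebraMap_iff (R := ℚ) (A := finSub K) (B := K) hinj
    (x := ⟨β, mk_nonneg_of_isAlgebraic h⟩)).mp h.isIntegral
  exact this

theorem isAlgebraic_aeval' {β : K} (h : IsAlgebraic ℚ β) (f : ℚ[X]) :
    IsAlgebraic ℚ (aeval β f) := by
  induction f using Polynomial.induction_on' with
  | add p q hp hq => rw [map_add]; exact hp.add hq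
  | monomial n a =>
    rw [Polynomial.aeval_monomial]
    exact (isAlgebraic_algebraMap a).mul (h.pow n)

theorem mk_eq_of_near {a b : K} (ha : ArchimedeanClass.mk a = 0)
    (hab : 0 < ArchimedeanClass.mk (b - a)) : ArchimedeanClass.mk b = 0 := by
  have h1 : b = a + (b - a) := by ring
  rw [h1, ArchimedeanClass.mk_add_eq_mk_left (by rw [ha]; exact hab), ha]

/-- The value of the minimal polynomial at a point near `β`. -/
theorem exists_value [IsRealClosed K] {x β : K} (hβ : IsAlgebraic ℚ β)
    (hx : 0 < ArchimedeanClass.mk (x - β)) :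
    ∃ r : ℚ[X], ArchimedeanClass.mk (aeval x r) = ArchimedeanClass.mk (x - β) := by
  set bO : finSub K := ⟨β, mk_nonneg_of_isAlgebraic hβ⟩ with hbO
  have hint : IsIntegral ℚ bO := isIntegral_mk hβ
  have hxO : x ∈ finSub K := by
    have : x = β + (x - β) := by ring
    rw [this]
    exact (finSub K).add_mem (mk_nonneg_of_isAlgebraic hβ) hx.le
  set xO : finSub K := ⟨x, hxO⟩ with hxOdef
  set p := minpoly ℚ bO with hp
  have hroot : (p.map (algebraMap ℚ (finSub K))).IsRoot bO := by
    rw [Polynomial.IsRoot, Polynomial.eval_map]; exact minpoly.aeval ℚ bO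
  obtain ⟨q, hq⟩ := Polynomial.dvd_iff_isRoot.mpr hroot
  have hqb : (derivative p).map (algebraMap ℚ (finSub K)) = q + (X - C bO) * derivative q := by
    rw [← Polynomial.derivative_map, hq, Polynomial.derivative_mul]
    simp
  have hqb' : aeval bO (derivative p) = q.eval bO := by
    rw [Polynomial.aeval_def, ← Polynomial.eval_map, hqb]
    simp
  have hne : aeval bO (derivative p) ≠ 0 :=
    (minpoly.irreducible hint).separable.aeval_derivative_ne_zero (minpoly.aeval ℚ bO)
  have halg : IsAlgebraic ℚ ((aeval bO (derivative p) : finSub K) : K) := by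
    have h1 : ((aeval bO (derivative p) : finSub K) : K) = aeval β (derivative p) := by
      rw [← coe_eval_map (derivative p) bO, Polynomial.eval_map]; rfl
    rw [h1]
    exact isAlgebraic_aeval' hβ _
  have hmk0 : ArchimedeanClass.mk ((q.eval bO : finSub K) : K) = 0 := by
    rw [← hqb']
    exact mk_of_isAlgebraic halg (by simpa using hne)
  refine ⟨p, ?_⟩
  rw [← coe_eval_map p xO, hq, eval_mul]
  have h2 : (((X - C bO).eval xO * q.eval xO : finSub K) : K) = (x - β) * (q.eval xO : finSub K) := by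
    simp [hbO, hxOdef]
  rw [h2, ArchimedeanClass.mk_mul]
  have h3 : ArchimedeanClass.mk ((q.eval xO : finSub K) : K) = 0 := by
    apply mk_eq_of_near hmk0
    exact lt_of_lt_of_le hx (mk_eval_sub q xO bO)
  rw [h3, add_zero]

/-- `β` is a limit of polynomials in `x`. -/
theorem exists_approx [IsRealClosed K] {t : K} (ht : ArchimedeanClass.mk t < 0)
    (hval : ∀ c : K, c ≠ 0 → ∃ m : ℕ, 0 < m ∧ ∃ k : ℤ,
      m • ArchimedeanClass.mk c = k • ArchimedeanClass.mk t)
    {x β : K} (hβ : IsAlgebraic ℚ β) (hx : 0 < ArchimedeanClass.mk (x - β)) (δ : K) (hδ : 0 < δ) :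
    ∃ r : ℚ[X], |β - aeval x r| < δ := by
  obtain ⟨n, hn⟩ := exists_pow_lt_of_infinitesimal ht hval hx hδ.ne'
  set bO : finSub K := ⟨β, mk_nonneg_of_isAlgebraic hβ⟩ with hbO
  have hint : IsIntegral ℚ bO := isIntegral_mk hβ
  have hxO : x ∈ finSub K := by
    have : x = β + (x - β) := by ring
    rw [this]
    exact (finSub K).add_mem (mk_nonneg_of_isAlgebraic hβ) hx.le
  set xO : finSub K := ⟨x, hxO⟩ with hxOdef
  obtain ⟨ρ, s, hs⟩ := exists_highOrder hint n
  refine ⟨ρ, ?_⟩
  have h1 : aeval x ρ - β = (x - β) ^ (n + 1) * (s.eval xO : finSub K) := by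
    have h2 := congrArg (fun f : (finSub K)[X] => ((f.eval xO : finSub K) : K)) hs
    simp only [eval_sub, eval_C, eval_mul, eval_pow, eval_X] at h2
    have h3 := coe_eval_map ρ xO
    push_cast at h2
    rw [h3] at h2
    simpa [hbO, hxOdef] using h2
  have h2 : ArchimedeanClass.mk δ < ArchimedeanClass.mk (aeval x ρ - β) := by
    refine lt_of_lt_of_le hn ?_
    rw [h1, pow_succ, mul_assoc, ArchimedeanClass.mk_mul]
    apply le_add_of_nonneg_right
    rw [ArchimedeanClass.mk_mul]
    exact add_nonneg hx.le (s.eval xO).2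
  rw [ArchimedeanClass.mk_lt_mk] at h2
  have h3 := h2 1
  rw [one_smul, abs_of_pos hδ] at h3
  rwa [abs_sub_comm]

end Pool.Agent.RealClosed
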