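import Pool.Agent.RealClosed.Step

/-!
# The tower of rational function fields
-/

open Polynomial ArchimedeanClass

namespace Pool.Agent.RealClosed

universe u v

variable {K : Type u} [Field K] [LinearOrder K] [IsStrictOrderedRing K]

theorem exists_poly {O : Type u} [CommRing O] [IsDomain O] [Algebra ℚ O] {β β' : O}
    (hβ : IsIntegral ℚ β) (g : ℚ[X]) (hg : aeval β' g = β) (N : ℕ) (c : ℚ) :
    ∃ (r : ℚ[X]) (h : O[X]), r.map (algebraMap ℚ O) - C β = (X - C β') ^ N * h ∧
      h.eval β' = algebraMap ℚ O c * (aeval β' (derivative (minpoly ℚ β'))) ^ N := by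
  obtain ⟨ρ, s, hs⟩ := exists_highOrder hβ N
  set m := minpoly ℚ β' with hm
  have hroot : (m.map (algebraMap ℚ O)).IsRoot β' := by
    rw [Polynomial.IsRoot, Polynomial.eval_map]; exact minpoly.aeval ℚ β'
  obtain ⟨q, hq⟩ := Polynomial.dvd_iff_isRoot.mpr hroot
  have hqb : (derivative m).map (algebraMap ℚ O) = q + (X - C β') * derivative q := by
    rw [← Polynomial.derivative_map, hq, Polynomial.derivative_mul]
    simp
  have hqb' : aeval β' (derivative m) = q.eval β' := by
    rw [Polynomial.aeval_def, ← Polynomial.eval_map, hqb]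
    simp
  have hgroot : (g.map (algebraMap ℚ O) - C β).IsRoot β' := by
    rw [Polynomial.IsRoot, eval_sub, eval_C, sub_eq_zero, eval_map]
    exact hg
  obtain ⟨γ, hγ⟩ := Polynomial.dvd_iff_isRoot.mpr hgroot
  set gO := g.map (algebraMap ℚ O) with hgO
  have hcomp : ((ρ.comp g).map (algebraMap ℚ O)) - C β =
      (X - C β') ^ (N + 1) * (γ ^ (N + 1) * s.comp gO) := by
    rw [Polynomial.map_comp, ← hgO]
    have h2 := congrArg (fun f => f.comp gO) hs
    simp only [sub_comp, C_comp, mul_comp, pow_comp, X_comp] at h2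
    rw [h2, hγ, mul_pow]
    ring
  refine ⟨ρ.comp g + C c * m ^ N, (X - C β') * (γ ^ (N + 1) * s.comp gO) +
    C (algebraMap ℚ O c) * q ^ N, ?_, ?_⟩
  · rw [Polynomial.map_add, Polynomial.map_mul, Polynomial.map_pow, hq, Polynomial.map_C, mul_pow]
    linear_combination hcomp
  · rw [hqb']
    simp only [eval_add, eval_mul, eval_sub, eval_X, eval_C, sub_self, zero_mul, zero_add, eval_pow]

theorem exists_step [IsRealClosed K] {x β β' : K} (hβ : IsAlgebraic ℚ β) (hβ' : IsAlgebraic ℚ β')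
    (g : ℚ[X]) (hg : aeval β' g = β) (N : ℕ) (hN : N ≠ 0) (hx0 : 0 < x - β)
    (hx : 0 < ArchimedeanClass.mk (x - β)) :
    ∃ y : K, ∃ r : ℚ[X], aeval y r = x ∧ 0 < y - β' ∧ 0 < ArchimedeanClass.mk (y - β') ∧
      ArchimedeanClass.mk (x - β) = N • ArchimedeanClass.mk (y - β') := by
  obtain ⟨bO, hbO⟩ : ∃ bO : finSub K, (bO : K) = β := ⟨⟨β, mk_nonneg_of_isAlgebraic hβ⟩, rfl⟩
  obtain ⟨cO, hcO⟩ : ∃ cO : finSub K, (cO : K) = β' := ⟨⟨β', mk_nonneg_of_isAlgebraic hβ'⟩, rfl⟩
  have hintb : IsIntegral ℚ bO := by subst hbO; exact isIntegral_mk hβ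
  have hintc : IsIntegral ℚ cO := by subst hcO; exact isIntegral_mk hβ'
  have hgO : aeval cO g = bO := by
    apply Subtype.ext
    rw [hbO, ← hg, ← hcO, ← coe_eval_map g cO, Polynomial.eval_map]; rfl
  set A0 : K := ((aeval cO (derivative (minpoly ℚ cO)) : finSub K) : K) with hA0
  have hne : aeval cO (derivative (minpoly ℚ cO)) ≠ 0 :=
    (minpoly.irreducible hintc).separable.aeval_derivative_ne_zero (minpoly.aeval ℚ cO)
  have hA0ne : A0 ≠ 0 := by
    rw [hA0]; simpa using hne
  have halg : IsAlgebraic ℚ A0 := by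
    have h1 : A0 = aeval β' (derivative (minpoly ℚ cO)) := by
      rw [hA0, ← hcO, ← coe_eval_map (derivative (minpoly ℚ cO)) cO, Polynomial.eval_map]; rfl
    rw [h1]
    exact isAlgebraic_aeval' hβ' _
  have hmkA0 : ArchimedeanClass.mk A0 = 0 := mk_of_isAlgebraic halg hA0ne
  -- sign
  obtain ⟨c, hc0, hcpos⟩ : ∃ c : ℚ, c ≠ 0 ∧ 0 < (algebraMap ℚ K c) * A0 ^ N := by
    rcases lt_or_gt_of_ne (pow_ne_zero N hA0ne) with h | h
    · exact ⟨-1, by norm_num, by simpa using h⟩
    · exact ⟨1, by norm_num, by simpa using h⟩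
  obtain ⟨r, h, hrh, hhc⟩ := exists_poly hintb g hgO N c
  have hrK : ∀ y : finSub K, aeval (y : K) r - β = ((y : K) - β') ^ N * (h.eval y : finSub K) := by
    intro y
    have h2 := congrArg (fun f : (finSub K)[X] => ((f.eval y : finSub K) : K)) hrh
    simp only [eval_sub, eval_C, eval_mul, eval_pow, eval_X] at h2
    rw [← hbO, ← hcO, ← coe_eval_map r y]
    exact h2
  obtain ⟨A, hA⟩ : ∃ A : K, A = ((h.eval cO : finSub K) : K) := ⟨_, rfl⟩
  have hAeq : A = algebraMap ℚ K c * A0 ^ N := by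
    rw [hA, hhc]
    rfl
  have hApos : 0 < A := by rw [hAeq]; exact hcpos
  have hmkA : ArchimedeanClass.mk A = 0 := by
    rw [hAeq, ArchimedeanClass.mk_mul, mk_ratCast_of_ne hc0, ArchimedeanClass.mk_pow, hmkA0]
    simp
  -- points infinitely close to `β'`
  have hnearO : ∀ z : K, 0 < ArchimedeanClass.mk z → β' + z ∈ finSub K := by
    intro z hz
    exact (finSub K).add_mem (mk_nonneg_of_isAlgebraic hβ') hz.le
  have hnear : ∀ (z : K), 0 < ArchimedeanClass.mk z → ∃ B : K,
      aeval (β' + z) r - β = z ^ N * B ∧ 0 < ArchimedeanClass.mk (B - A) := by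
    intro z hz
    refine ⟨((h.eval ⟨β' + z, hnearO z hz⟩ : finSub K) : K), ?_, ?_⟩
    · have h1 := hrK ⟨β' + z, hnearO z hz⟩
      simp only [add_sub_cancel_left] at h1
      exact h1
    · refine lt_of_lt_of_le hz ?_
      have h1 := mk_eval_sub h ⟨β' + z, hnearO z hz⟩ cO
      rw [hcO] at h1
      simp only [add_sub_cancel_left] at h1
      rw [hA]
      exact h1
  clear hrK hrh hhc hnearO
  -- natural number `n` with `1 ≤ n A`
  obtain ⟨n, hn⟩ : ∃ n : ℕ, (1 : K) ≤ n * A := by
    have h1 : ArchimedeanClass.mk A ≤ ArchimedeanClass.mk (1 : K) := by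
      rw [hmkA, ArchimedeanClass.mk_one]
    rw [ArchimedeanClass.mk_le_mk] at h1
    obtain ⟨n, hn⟩ := h1
    exact ⟨n, by simpa [abs_of_pos hApos] using hn⟩
  obtain ⟨ε, hε⟩ : ∃ ε : K, ε = x - β := ⟨_, rfl⟩
  rw [← hε] at hx0 hx ⊢
  obtain ⟨M, hM⟩ : ∃ M : K, M = 2 * n + 1 := ⟨_, rfl⟩
  have hn0 : (0 : K) ≤ n := Nat.cast_nonneg n
  have hMpos : 0 < M := by rw [hM]; linarith
  have hMA : 2 < M * A := by rw [hM]; nlinarith
  have hMε : 0 < M * ε := mul_pos hMpos hx0
  obtain ⟨s0, hs0⟩ := IsRealClosed.exists_eq_pow_of_nonneg (x := M * ε) hMε.le hN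
  obtain ⟨σ, hσ⟩ : ∃ σ : K, σ = |s0| := ⟨_, rfl⟩
  have hσN : σ ^ N = M * ε := by
    rw [hσ, ← abs_pow, ← hs0, abs_of_pos hMε]
  have hσ0 : 0 < σ := by
    have h0 : 0 ≤ σ := by rw [hσ]; exact abs_nonneg s0
    rcases h0.lt_or_eq with h1 | h1
    · exact h1
    · exfalso
      rw [← h1, zero_pow hN] at hσN
      exact hMε.ne hσN
  have hMnat : M = ((2 * n + 1 : ℕ) : K) := by rw [hM]; push_cast; ring
  have hmkσN : N • ArchimedeanClass.mk σ = ArchimedeanClass.mk ε := by
    rw [← ArchimedeanClass.mk_pow, hσN, ArchimedeanClass.mk_mul, hMnat,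
      ArchimedeanClass.mk_natCast (by omega), zero_add]
  have hmkσ : 0 < ArchimedeanClass.mk σ := by
    by_contra hcon
    have h1 : N • ArchimedeanClass.mk σ ≤ 0 := nsmul_nonpos (not_lt.mp hcon) N
    rw [hmkσN] at h1
    exact absurd hx (not_lt.mpr h1)
  obtain ⟨P, hP⟩ : ∃ P : K[X], P = r.map (algebraMap ℚ K) - C x := ⟨_, rfl⟩
  have hPeval : ∀ y : K, P.eval y = aeval y r - x := by
    intro y
    rw [hP, eval_sub, eval_C, eval_map]; rfl
  have hP0 : P.eval β' = -ε := by
    rw [hPeval]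
    obtain ⟨B, hB, _⟩ := hnear 0 (by simp)
    rw [add_zero, zero_pow hN, zero_mul] at hB
    rw [hε]
    linear_combination hB
  have hPσ : 0 < P.eval (β' + σ) := by
    rw [hPeval]
    obtain ⟨B, h3, h2⟩ := hnear σ hmkσ
    have h4 : 2 * |B - A| < A := by
      rw [← hmkA, ArchimedeanClass.mk_lt_mk] at h2
      have := h2 2
      simpa [abs_of_pos hApos] using this
    have h5 : A / 2 < B := by
      have := neg_abs_le (B - A)
      linarith
    have h6 : aeval (β' + σ) r - x = σ ^ N * B - ε := by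
      rw [← h3, hε]; ring
    rw [h6, hσN]
    have h7 : M * ε * B > M * ε * (A / 2) := mul_lt_mul_of_pos_left h5 hMε
    have h8 : M * ε * (A / 2) = (M * A) * (ε / 2) := by ring
    have h9 : (M * A) * (ε / 2) > 2 * (ε / 2) := mul_lt_mul_of_pos_right hMA (by linarith)
    linarith
  obtain ⟨y, hy1, hy2, hy3⟩ := exists_root_of_mul_neg (P.natDegree) P le_rfl β' (β' + σ)
    (by linarith) (by rw [hP0]; nlinarith)
  have hyz : 0 < ArchimedeanClass.mk (y - β') := by
    refine lt_of_lt_of_le hmkσ ?_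
    apply ArchimedeanClass.mk_le_mk_of_abs
    rw [abs_of_pos hσ0, abs_of_pos (by linarith)]
    linarith
  have h5 : aeval y r = x := by rw [hPeval] at hy3; linear_combination hy3
  refine ⟨y, r, h5, by linarith, hyz, ?_⟩
  obtain ⟨B, h1, h2⟩ := hnear (y - β') hyz
  have h3 : ArchimedeanClass.mk B = 0 := mk_eq_of_near hmkA h2
  rw [add_sub_cancel, h5, ← hε] at h1
  rw [h1, ArchimedeanClass.mk_mul, ArchimedeanClass.mk_pow, h3, add_zero]

/-- A primitive element for two algebraic elements. -/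
theorem exists_primitive {β γ : K} (hβ : IsAlgebraic ℚ β) (hγ : IsAlgebraic ℚ γ) :
    ∃ α : K, IsAlgebraic ℚ α ∧ (∃ g : ℚ[X], aeval α g = β) ∧ ∃ g : ℚ[X], aeval α g = γ := by
  let E : IntermediateField ℚ K := IntermediateField.adjoin ℚ {β, γ}
  have hfin : FiniteDimensional ℚ E := by
    apply IntermediateField.finiteDimensional_adjoin
    intro x hx
    rcases hx with rfl | hx
    · exact hβ.isIntegral
    · rw [Set.mem_singleton_iff] at hx; subst hx; exact hγ.isIntegral
  obtain ⟨α, hα⟩ := Field.exists_primitive_element ℚ E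
  have hαint : IsIntegral ℚ α := Algebra.IsIntegral.isIntegral α
  have key : ∀ x : E, ∃ g : ℚ[X], aeval (α : K) g = x := by
    intro x
    have h1 : x ∈ (IntermediateField.adjoin ℚ {α}).toSubalgebra := by
      rw [hα]; trivial
    rw [IntermediateField.adjoin_simple_toSubalgebra_of_isAlgebraic hαint.isAlgebraic,
      Algebra.adjoin_singleton_eq_range_aeval] at h1
    obtain ⟨g, hg⟩ := h1
    refine ⟨g, ?_⟩
    have h2 : aeval α g = x := hg
    have h3 : aeval (α : K) g = E.val (aeval α g) := Polynomial.aeval_algHom_apply E.val α g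
    rw [h3, h2]
    rfl
  refine ⟨α, ?_, key ⟨β, IntermediateField.subset_adjoin ℚ _ (by simp)⟩,
    key ⟨γ, IntermediateField.subset_adjoin ℚ _ (by simp)⟩⟩
  exact (Algebra.IsAlgebraic.isAlgebraic (R := ℚ) α).algebraMap

/-- The elements of `ℚ(y)` algebraic over `ℚ` are rational, for `y` transcendental. -/
theorem rat_of_isAlgebraic_of_mem_adjoin {y f : K} (hy : ¬ IsAlgebraic ℚ y)
    (hf : f ∈ IntermediateField.adjoin ℚ {y}) (hfa : IsAlgebraic ℚ f) : ∃ q : ℚ, (q : K) = f := by
  rw [IntermediateField.mem_adjoin_simple_iff] at hf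
  obtain ⟨g, h, hgh⟩ := hf
  by_cases h0 : aeval y h = 0
  · exact ⟨0, by rw [hgh, h0, div_zero]; simp⟩
  by_contra hcon
  push Not at hcon
  -- the polynomial `g - f h` over `ℚ(f)`
  let E := IntermediateField.adjoin ℚ {f}
  let fE : E := ⟨f, IntermediateField.mem_adjoin_simple_self ℚ f⟩
  let R : E[X] := g.map (algebraMap ℚ E) - C fE * h.map (algebraMap ℚ E)
  have hEalg : Algebra.IsAlgebraic ℚ E :=
    IntermediateField.isAlgebraic_adjoin_simple hfa.isIntegral
  have hR0 : R ≠ 0 := by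
    intro hR
    have hne : h ≠ 0 := by rintro rfl; simp at h0
    obtain ⟨i, hi⟩ : ∃ i, h.coeff i ≠ 0 := by
      by_contra hall
      push Not at hall
      exact hne (Polynomial.ext (by simpa using hall))
    have h1 := congrArg (fun p => p.coeff i) hR
    simp only [R, coeff_sub, coeff_map, coeff_C_mul, coeff_zero] at h1
    have h2 := congrArg (fun a : E => (a : K)) h1
    simp only [fE] at h2
    push_cast at h2
    have h3 : (algebraMap ℚ K (g.coeff i)) - f * algebraMap ℚ K (h.coeff i) = 0 := by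
      simpa using h2
    apply hcon (g.coeff i / h.coeff i)
    have h4 : (algebraMap ℚ K (h.coeff i)) ≠ 0 := by simpa using hi
    push_cast
    rw [div_eq_iff (by simpa using h4)]
    have h5 : ((g.coeff i : ℚ) : K) = algebraMap ℚ K (g.coeff i) := by simp
    have h6 : ((h.coeff i : ℚ) : K) = algebraMap ℚ K (h.coeff i) := by simp
    rw [h5, h6]
    linear_combination h3
  have hRy : aeval y R = 0 := by
    simp only [R, map_sub, map_mul, aeval_C, aeval_map_algebraMap]
    have : algebraMap E K fE = f := rfl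
    rw [this, hgh]
    field_simp
    ring
  have hyE : IsAlgebraic E y := ⟨R, hR0, hRy⟩
  exact hy (hyE.restrictScalars ℚ)

theorem aeval_mem_adjoin_simple (x : K) (r : ℚ[X]) :
    aeval x r ∈ IntermediateField.adjoin ℚ {x} :=
  IntermediateField.algebra_adjoin_le_adjoin ℚ _ (Polynomial.aeval_mem_adjoin_singleton ℚ x)

theorem mk_eq_of_nsmul_eq {a b : K} {m : ℕ} (hm : m ≠ 0)
    (h : m • ArchimedeanClass.mk a = m • ArchimedeanClass.mk b) :
    ArchimedeanClass.mk a = ArchimedeanClass.mk b := by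
  have key : ∀ a b : K, ArchimedeanClass.mk a < ArchimedeanClass.mk b →
      m • ArchimedeanClass.mk a ≠ m • ArchimedeanClass.mk b := by
    intro a b hab heq
    rw [← ArchimedeanClass.mk_pow, ← ArchimedeanClass.mk_pow] at heq
    have h1 := heq.ge
    rw [ArchimedeanClass.mk_le_mk] at h1
    obtain ⟨n, hn⟩ := h1
    rw [ArchimedeanClass.mk_lt_mk] at hab
    have h2 := hab (n + 1)
    rw [nsmul_eq_mul, abs_pow] at hn
    rw [nsmul_eq_mul] at h2
    have h0 : 0 < |a| := lt_of_le_of_lt (by positivity) h2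
    have h3 : (((n + 1 : ℕ) : K) * |b|) ^ m < |a| ^ m := pow_lt_pow_left₀ h2 (by positivity) hm
    rw [mul_pow] at h3
    have h4 : ((n : K)) ≤ ((n + 1 : ℕ) : K) ^ m := by
      have h5 : ((n + 1 : ℕ) : K) ≤ ((n + 1 : ℕ) : K) ^ m := by
        apply le_self_pow₀ _ hm
        push_cast; have : (0 : K) ≤ n := Nat.cast_nonneg n
        linarith
      refine le_trans ?_ h5
      push_cast; linarith
    have h6 : (n : K) * |b| ^ m ≤ ((n + 1 : ℕ) : K) ^ m * |b| ^ m :=
      mul_le_mul_of_nonneg_right h4 (by positivity)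
    rw [abs_pow] at hn
    linarith
  rcases lt_trichotomy (ArchimedeanClass.mk a) (ArchimedeanClass.mk b) with h1 | h1 | h1
  · exact absurd h (key a b h1)
  · exact h1
  · exact absurd h.symm (key b a h1)

/-- The real closure of `ℚ(t)`, `t` infinitely large, has a dense subfield in which `ℚ` is
relatively algebraically closed. -/
theorem exists_dense_subfield [IsRealClosed K] {t : K} (ht : ArchimedeanClass.mk t < 0)
    (htpos : 0 < t) (halg : Algebra.IsAlgebraic (IntermediateField.adjoin ℚ {t}) K) :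
    ∃ F : Subfield K, (∀ a b : K, a < b → ∃ f ∈ F, a < f ∧ f < b) ∧
      ∀ x ∈ F, IsAlgebraic ℚ x → ∃ q : ℚ, (q : K) = x := by
  classical
  have hval : ∀ c : K, c ≠ 0 → ∃ m : ℕ, 0 < m ∧ ∃ k : ℤ,
      m • ArchimedeanClass.mk c = k • ArchimedeanClass.mk t := by
    intro c hc
    obtain ⟨P, hP, hPc⟩ := exists_rel t halg (B := K) c
    exact exists_nsmul_mk_eq ht hc hP hPc
  -- enumeration of the algebraic elements
  have hcount : Set.Countable {x : K | IsAlgebraic ℚ x} := Algebraic.countable ℚ K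
  have hne : ({x : K | IsAlgebraic ℚ x}).Nonempty := ⟨0, isAlgebraic_zero⟩
  obtain ⟨e, he⟩ := hcount.exists_eq_range hne
  have healg : ∀ n, IsAlgebraic ℚ (e n) := by
    intro n
    have : e n ∈ {x : K | IsAlgebraic ℚ x} := by rw [he]; exact ⟨n, rfl⟩
    exact this
  let Good : K × K → Prop := fun p => IsAlgebraic ℚ p.2 ∧ 0 < p.1 - p.2 ∧
    0 < ArchimedeanClass.mk (p.1 - p.2)
  have hnext : ∀ (n : ℕ) (p : {p : K × K // Good p}), ∃ p' : {p : K × K // Good p},
      (∃ r : ℚ[X], aeval p'.1.1 r = p.1.1) ∧ (∃ g : ℚ[X], aeval p'.1.2 g = e n) ∧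
      ArchimedeanClass.mk (p.1.1 - p.1.2) = (n + 1) • ArchimedeanClass.mk (p'.1.1 - p'.1.2) := by
    rintro n ⟨⟨x, β⟩, h1, h2, h3⟩
    obtain ⟨β', hβ', ⟨g, hg⟩, g2, hg2⟩ := exists_primitive h1 (healg n)
    obtain ⟨y, r, hr, hy1, hy2, hy3⟩ := exists_step h1 hβ' g hg (n + 1) (Nat.succ_ne_zero n) h2 h3
    exact ⟨⟨(y, β'), hβ', hy1, hy2⟩, ⟨r, hr⟩, ⟨g2, hg2⟩, hy3⟩
  choose nxt hnxt1 hnxt2 hnxt3 using hnext
  have hstart : Good (t⁻¹, 0) := by
    refine ⟨isAlgebraic_zero, ?_, ?_⟩
    · simpa using htpos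
    · simpa using mk_inv_pos ht
  let st : ℕ → {p : K × K // Good p} := fun n =>
    Nat.rec (motive := fun _ => {p : K × K // Good p}) ⟨(t⁻¹, 0), hstart⟩ (fun n p => nxt n p) n
  have hst0 : st 0 = ⟨(t⁻¹, 0), hstart⟩ := rfl
  have hsts : ∀ n, st (n + 1) = nxt n (st n) := fun n => rfl
  let Fn : ℕ → Subfield K := fun n => (IntermediateField.adjoin ℚ {(st n).1.1}).toSubfield
  have hmono : Monotone Fn := by
    apply monotone_nat_of_le_succ
    intro n
    have h1 : IntermediateField.adjoin ℚ {(st n).1.1} ≤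
        IntermediateField.adjoin ℚ {(st (n + 1)).1.1} := by
      rw [IntermediateField.adjoin_simple_le_iff]
      obtain ⟨r, hr⟩ := hnxt1 n (st n)
      rw [← hsts] at hr
      rw [← hr]
      exact aeval_mem_adjoin_simple _ _
    exact h1
  have hdir : Directed (· ≤ ·) Fn := hmono.directed_le
  have hmemF : ∀ x, x ∈ (⨆ n, Fn n) ↔ ∃ n, x ∈ Fn n := fun x =>
    Subfield.mem_iSup_of_directed hdir
  refine ⟨⨆ n, Fn n, ?_, ?_⟩
  · -- density
    have hxF : ∀ n, ∀ r : ℚ[X], aeval (st n).1.1 r ∈ (⨆ n, Fn n) := by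
      intro n r
      rw [hmemF]
      exact ⟨n, aeval_mem_adjoin_simple _ _⟩
    obtain ⟨G, hG⟩ := exists_closure (⨆ n, Fn n)
    have happ := approx_of_residue_value ht halg (⨆ n, Fn n) (by
      have h1 : t⁻¹ ∈ (⨆ n, Fn n) := by
        have := hxF 0 X
        simpa [hst0] using this
      have h2 := (⨆ n, Fn n).inv_mem h1
      rwa [inv_inv] at h2)
      (by
        intro β hβ
        rw [← hG]
        have h1 : β ∈ {x : K | IsAlgebraic ℚ x} := hβ
        rw [he] at h1
        obtain ⟨n, rfl⟩ := h1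
        obtain ⟨g, hg⟩ := hnxt2 n (st n)
        rw [← hsts] at hg
        rw [← hg]
        have h2 : (st (n + 1)).1.2 ∈ G := by
          rw [hG]
          intro δ hδ
          obtain ⟨r, hr⟩ := exists_approx ht hval (st (n + 1)).2.1 (st (n + 1)).2.2.2 δ hδ
          exact ⟨_, hxF (n + 1) r, hr⟩
        rw [Polynomial.aeval_eq_sum_range]
        apply G.sum_mem
        intro i _
        rw [Algebra.smul_def]
        exact G.mul_mem (by simp) (G.pow_mem h2 i))
      (by
        intro c hc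
        obtain ⟨m, hm, k, hk⟩ := hval c hc
        have hfac : ∀ n, ArchimedeanClass.mk t⁻¹ =
            n.factorial • ArchimedeanClass.mk ((st n).1.1 - (st n).1.2) := by
          intro n
          induction n with
          | zero => simp [hst0]
          | succ n ih =>
            rw [ih, hnxt3 n (st n), ← hsts, Nat.factorial_succ, mul_comm, mul_smul]
        obtain ⟨r, hr⟩ := exists_value (st m).2.1 (st m).2.2.2
        set f0 : K := aeval (st m).1.1 r with hf0
        have hfm : ArchimedeanClass.mk t⁻¹ = m.factorial • ArchimedeanClass.mk f0 := by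
          rw [hfac m, hr]
        obtain ⟨l, hl⟩ := Nat.dvd_factorial hm le_rfl
        refine ⟨f0 ^ (-(k * l)), (⨆ n, Fn n).zpow_mem (hxF m r) _, ?_⟩
        apply mk_eq_of_nsmul_eq hm.ne'
        rw [hk, ← ArchimedeanClass.mk_pow, ← ArchimedeanClass.mk_zpow]
        have h1 : (f0 ^ (-(k * l))) ^ m = (f0 ^ m.factorial) ^ (-k) := by
          rw [← zpow_natCast, ← zpow_natCast, ← zpow_mul, ← zpow_mul, hl]
          congr 1
          push_cast
          ring
        rw [h1, ArchimedeanClass.mk_zpow, ArchimedeanClass.mk_pow, ← hfm,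
          ← ArchimedeanClass.mk_zpow]
        congr 1
        rw [inv_zpow, zpow_neg, inv_inv])
    intro a b hab
    obtain ⟨f, hf, hf'⟩ := happ ((a + b) / 2) ((b - a) / 2) (by linarith)
    refine ⟨f, hf, ?_, ?_⟩
    · have := (abs_lt.mp hf').2
      linarith
    · have := (abs_lt.mp hf').1
      linarith
  · intro x hx hxa
    rw [hmemF] at hx
    obtain ⟨n, hn⟩ := hx
    apply rat_of_isAlgebraic_of_mem_adjoin (y := (st n).1.1) _ hn hxa
    intro halgx
    have h1 : IsAlgebraic ℚ ((st n).1.1 - (st n).1.2) := halgx.sub (st n).2.1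
    have h2 := mk_of_isAlgebraic h1 (st n).2.2.1.ne'
    have h3 := (st n).2.2.2
    rw [h2] at h3
    exact lt_irrefl _ h3

end Pool.Agent.RealClosed
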