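import Pool.Agent.RealClosed.IVT

/-!
# Archimedean classes in an ordered field that is algebraic over `ℚ(t)`, `t` infinitely large
-/

open Polynomial ArchimedeanClass

namespace Pool.Agent.RealClosed

universe u v

variable {K : Type u} [Field K] [LinearOrder K] [IsStrictOrderedRing K]

theorem mk_sum_mem {ι : Type*} (s : Finset ι) (f : ι → K) (hs : s.Nonempty)
    (hinj : ∀ i ∈ s, ∀ j ∈ s, ArchimedeanClass.mk (f i) = ArchimedeanClass.mk (f j) → i = j) :
    ∃ i ∈ s, ArchimedeanClass.mk (∑ j ∈ s, f j) = ArchimedeanClass.mk (f i) := by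
  induction hs using Finset.Nonempty.cons_induction with
  | singleton a => exact ⟨a, Finset.mem_singleton_self a, by simp⟩
  | cons a s ha hs ih =>
    obtain ⟨i, hi, hi'⟩ := ih (fun i hi j hj h =>
      hinj i (Finset.mem_cons_of_mem hi) j (Finset.mem_cons_of_mem hj) h)
    rw [Finset.sum_cons]
    have hne : ArchimedeanClass.mk (f a) ≠ ArchimedeanClass.mk (∑ j ∈ s, f j) := by
      rw [hi']
      intro h
      have := hinj a (Finset.mem_cons_self a s) i (Finset.mem_cons_of_mem hi) h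
      subst this
      exact ha hi
    rcases lt_or_gt_of_ne hne with h | h
    · exact ⟨a, Finset.mem_cons_self a s, ArchimedeanClass.mk_add_eq_mk_left h⟩
    · exact ⟨i, Finset.mem_cons_of_mem hi, (ArchimedeanClass.mk_add_eq_mk_right h).trans hi'⟩

theorem mk_lt_zero_iff {t : K} : ArchimedeanClass.mk t < 0 ↔ ∀ n : ℕ, (n : K) < |t| := by
  rw [← ArchimedeanClass.mk_one, ArchimedeanClass.mk_lt_mk]
  simp

theorem zero_lt_mk_iff {x : K} : 0 < ArchimedeanClass.mk x ↔ ∀ n : ℕ, (n : K) * |x| < 1 := by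
  rw [← ArchimedeanClass.mk_one, ArchimedeanClass.mk_lt_mk]
  simp

theorem nsmul_injective_of_neg {a : ArchimedeanClass K} (ha : a < 0) {i j : ℕ}
    (h : i • a = j • a) : i = j := by
  induction a with | mk t =>
  have ht : 1 < |t| := by simpa using mk_lt_zero_iff.mp ha 1
  have hcla : ∀ i j : ℕ, i < j → ArchimedeanClass.mk (t ^ j) < ArchimedeanClass.mk (t ^ i) := by
    intro i j hij
    obtain ⟨k, rfl⟩ := Nat.exists_eq_add_of_lt hij
    rw [ArchimedeanClass.mk_lt_mk]
    intro n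
    have h1 := mk_lt_zero_iff.mp ha n
    have h2 : |t ^ (i + k + 1)| = |t ^ i| * (|t| ^ k * |t|) := by
      rw [abs_pow, abs_pow, pow_succ, pow_add]; ring
    rw [h2, nsmul_eq_mul, mul_comm]
    have h3 : 0 < |t ^ i| := by rw [abs_pow]; positivity
    have h4 : 1 ≤ |t| ^ k := one_le_pow₀ ht.le
    have h5 : |t| ≤ |t| ^ k * |t| := by nlinarith
    exact mul_lt_mul_of_pos_left (by linarith) h3
  rw [← ArchimedeanClass.mk_pow, ← ArchimedeanClass.mk_pow] at h
  rcases lt_trichotomy i j with h1 | h1 | h1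
  · exact absurd h (hcla i j h1).ne'
  · exact h1
  · exact absurd h (hcla j i h1).ne

theorem pow_eq_zero_iff_of_ne {x : K} {n : ℕ} (h : x ^ n = 0) : x = 0 := by
  by_contra hx
  exact pow_ne_zero n hx h

theorem mk_ratCast_of_ne {q : ℚ} (h : q ≠ 0) : ArchimedeanClass.mk (algebraMap ℚ K q) = 0 := by
  have := ArchimedeanClass.mk_ratCast (R := K) h
  simpa using this

theorem exists_mk_aeval {t : K} (ht : ArchimedeanClass.mk t < 0) {f : ℚ[X]} (hf : f ≠ 0) :
    ∃ d : ℕ, ArchimedeanClass.mk (aeval t f) = d • ArchimedeanClass.mk t := by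
  have h1 : ∀ i ∈ f.support, ArchimedeanClass.mk (algebraMap ℚ K (f.coeff i) * t ^ i) =
      i • ArchimedeanClass.mk t := by
    intro i hi
    rw [ArchimedeanClass.mk_mul, mk_ratCast_of_ne (Polynomial.mem_support_iff.mp hi), zero_add,
      ArchimedeanClass.mk_pow]
  obtain ⟨i, hi, hi'⟩ := mk_sum_mem f.support (fun i => algebraMap ℚ K (f.coeff i) * t ^ i)
    (Polynomial.support_nonempty.mpr hf) (by
      intro i hi j hj h
      rw [h1 i hi, h1 j hj] at h
      exact nsmul_injective_of_neg ht h)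
  refine ⟨i, ?_⟩
  rw [← h1 i hi, ← hi', Polynomial.aeval_def, Polynomial.eval₂_eq_sum, Polynomial.sum_def]

/-- Every nonzero element of `K` has, up to a torsion factor, the size of a power of `t`. -/
theorem exists_nsmul_mk_eq {t : K} (ht : ArchimedeanClass.mk t < 0) {c : K} (hc : c ≠ 0)
    {P : ℚ[X][X]} (hP : P ≠ 0) (hPc : P.eval₂ (aeval t : ℚ[X] →ₐ[ℚ] K).toRingHom c = 0) :
    ∃ m : ℕ, 0 < m ∧ ∃ k : ℤ, m • ArchimedeanClass.mk c = k • ArchimedeanClass.mk t := by
  rw [Polynomial.eval₂_eq_sum, Polynomial.sum_def] at hPc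
  have htop : ArchimedeanClass.mk t ≠ ⊤ := (lt_of_lt_of_le ht le_top).ne
  have hterm : ∀ i ∈ P.support, ∃ d : ℕ, ArchimedeanClass.mk
      ((aeval t : ℚ[X] →ₐ[ℚ] K).toRingHom (P.coeff i) * c ^ i) =
      d • ArchimedeanClass.mk t + i • ArchimedeanClass.mk c := by
    intro i hi
    obtain ⟨d, hd⟩ := exists_mk_aeval ht (Polynomial.mem_support_iff.mp hi)
    refine ⟨d, ?_⟩
    rw [ArchimedeanClass.mk_mul, ArchimedeanClass.mk_pow]
    congr 1
  by_cases hinj : ∀ i ∈ P.support, ∀ j ∈ P.support, ArchimedeanClass.mk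
      ((aeval t : ℚ[X] →ₐ[ℚ] K).toRingHom (P.coeff i) * c ^ i) = ArchimedeanClass.mk
      ((aeval t : ℚ[X] →ₐ[ℚ] K).toRingHom (P.coeff j) * c ^ j) → i = j
  · exfalso
    obtain ⟨i, hi, hi'⟩ := mk_sum_mem P.support
      (fun i => (aeval t : ℚ[X] →ₐ[ℚ] K).toRingHom (P.coeff i) * c ^ i)
      (Polynomial.support_nonempty.mpr hP) hinj
    rw [hPc, ArchimedeanClass.mk_zero] at hi'
    have h2 := (ArchimedeanClass.top_eq_mk_iff.mp hi')
    obtain ⟨d, hd⟩ := exists_mk_aeval ht (Polynomial.mem_support_iff.mp hi)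
    rcases mul_eq_zero.mp h2 with h3 | h3
    · have h4 : aeval t (P.coeff i) = 0 := h3
      rw [h4, ArchimedeanClass.mk_zero, ← ArchimedeanClass.mk_pow] at hd
      have h5 : t ^ d = 0 := ArchimedeanClass.top_eq_mk_iff.mp hd
      have h6 : t = 0 := pow_eq_zero_iff_of_ne h5
      apply htop
      rw [h6, ArchimedeanClass.mk_zero]
    · exact hc (pow_eq_zero_iff_of_ne h3)
  · push Not at hinj
    obtain ⟨i, hi, j, hj, heq, hne⟩ := hinj
    obtain ⟨d, hd⟩ := hterm i hi
    obtain ⟨e, he⟩ := hterm j hj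
    rw [hd, he] at heq
    have key : ∀ i j d e : ℕ, i < j →
        d • ArchimedeanClass.mk t + i • ArchimedeanClass.mk c =
        e • ArchimedeanClass.mk t + j • ArchimedeanClass.mk c →
        ∃ m : ℕ, 0 < m ∧ ∃ k : ℤ, m • ArchimedeanClass.mk c = k • ArchimedeanClass.mk t := by
      intro i j d e hij h
      obtain ⟨m, rfl⟩ := Nat.exists_eq_add_of_lt hij
      refine ⟨m + 1, Nat.succ_pos m, (d : ℤ) - e, ?_⟩
      have ht0 : t ≠ 0 := by rintro rfl; exact htop ArchimedeanClass.mk_zero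
      have h1 : ArchimedeanClass.mk (t ^ d * c ^ i) =
          ArchimedeanClass.mk (t ^ e * c ^ (i + m + 1)) := by
        simpa [ArchimedeanClass.mk_mul, ArchimedeanClass.mk_pow] using h
      have h2 : c ^ (m + 1) = (t ^ e * c ^ (i + m + 1)) / (t ^ e * c ^ i) := by
        rw [show i + m + 1 = i + (m + 1) by ring, pow_add c i (m + 1)]
        field_simp
      have h3 : (t ^ d * c ^ i) / (t ^ e * c ^ i) = t ^ ((d : ℤ) - e) := by
        rw [zpow_sub₀ ht0, zpow_natCast, zpow_natCast]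
        field_simp
      rw [← ArchimedeanClass.mk_pow, ← ArchimedeanClass.mk_zpow, h2, ← h3,
        ArchimedeanClass.mk_div, ArchimedeanClass.mk_div, h1]
    rcases lt_or_gt_of_ne hne with h1 | h1
    · exact key i j d e h1 heq
    · exact key j i e d h1 heq.symm

theorem nsmul_pos_of_pos {a : ArchimedeanClass K} (ha : 0 < a) {n : ℕ} (hn : n ≠ 0) :
    0 < n • a := by
  obtain ⟨m, rfl⟩ := Nat.exists_eq_succ_of_ne_zero hn
  rw [Nat.succ_eq_add_one, succ_nsmul]
  exact lt_of_lt_of_le ha (le_add_of_nonneg_left (nsmul_nonneg ha.le m))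

theorem mk_inv_pos {t : K} (ht : ArchimedeanClass.mk t < 0) : 0 < ArchimedeanClass.mk t⁻¹ := by
  rw [zero_lt_mk_iff]
  intro n
  have h1 := mk_lt_zero_iff.mp ht n
  have h2 : 0 < |t| := lt_of_le_of_lt (Nat.cast_nonneg n) h1
  rw [abs_inv, ← div_eq_mul_inv, div_lt_one h2]
  exact h1

theorem mk_abs_eq (x : K) : ArchimedeanClass.mk |x| = ArchimedeanClass.mk x :=
  ArchimedeanClass.mk_abs x

/-- `K(i)`: size of an element. -/
noncomputable def sz [IsRealClosed K] (z : Cx K) : ArchimedeanClass K :=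
  ArchimedeanClass.mk (Cx.abv z)

theorem sz_mul [IsRealClosed K] (z w : Cx K) : sz (z * w) = sz z + sz w := by
  rw [sz, map_mul, ArchimedeanClass.mk_mul]; rfl

theorem sz_algebraMap [IsRealClosed K] (x : K) :
    sz (algebraMap K (Cx K) x) = ArchimedeanClass.mk x := by
  rw [sz, Cx.abv_algebraMap, mk_abs_eq]

theorem sz_zero [IsRealClosed K] : sz (0 : Cx K) = ⊤ := by
  rw [sz, AbsoluteValue.map_zero, ArchimedeanClass.mk_zero]

theorem sz_one [IsRealClosed K] : sz (1 : Cx K) = 0 := by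
  rw [sz, AbsoluteValue.map_one, ArchimedeanClass.mk_one]

theorem sz_eq_top [IsRealClosed K] {z : Cx K} : sz z = ⊤ ↔ z = 0 := by
  rw [sz, ArchimedeanClass.mk_eq_top_iff, AbsoluteValue.eq_zero]

theorem sz_add [IsRealClosed K] (z w : Cx K) : min (sz z) (sz w) ≤ sz (z + w) := by
  have h1 : |Cx.abv (z + w)| ≤ |Cx.abv z + Cx.abv w| := by
    rw [abs_of_nonneg (Cx.abv.nonneg _), abs_of_nonneg (add_nonneg (Cx.abv.nonneg _)
      (Cx.abv.nonneg _))]
    exact Cx.abv.add_le z w
  exact (ArchimedeanClass.min_le_mk_add _ _).trans (ArchimedeanClass.mk_le_mk_of_abs h1)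

theorem sz_neg [IsRealClosed K] (z : Cx K) : sz (-z) = sz z := by
  rw [sz, AbsoluteValue.map_neg]; rfl

theorem sz_pow [IsRealClosed K] (z : Cx K) (n : ℕ) : sz (z ^ n) = n • sz z := by
  rw [sz, map_pow, ArchimedeanClass.mk_pow]; rfl

theorem lt_sz_sum [IsRealClosed K] {ι : Type*} (s : Finset ι) (f : ι → Cx K)
    {a : ArchimedeanClass K} (ha : a ≠ ⊤) (h : ∀ i ∈ s, a < sz (f i)) : a < sz (∑ i ∈ s, f i) := by
  classical
  induction s using Finset.induction_on with
  | empty => simpa [sz_zero] using lt_top_iff_ne_top.mpr ha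
  | insert i s hi ih =>
    rw [Finset.sum_insert hi]
    refine lt_of_lt_of_le (lt_min (h i (Finset.mem_insert_self i s)) (ih ?_)) (sz_add _ _)
    intro j hj
    exact h j (Finset.mem_insert_of_mem hj)

theorem exists_root_near [IsRealClosed K] (z : Cx K) (g : (Cx K)[X]) (hlc : sz g.leadingCoeff ≤ 0)
    (hg : 0 < sz (g.eval z)) : ∃ β ∈ g.roots, 0 < sz (z - β) := by
  have := Cx.isAlgClosed (K := K)
  by_contra hcon
  push Not at hcon
  have hsplit : g.Splits := IsAlgClosed.splits g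
  have hfac := hsplit.eq_prod_roots
  have key : ∀ s : Multiset (Cx K), (∀ a ∈ s, sz (z - a) ≤ 0) →
      sz (((s.map (fun a => X - Polynomial.C a)).prod).eval z) ≤ 0 := by
    intro s
    induction s using Multiset.induction_on with
    | empty => intro _; simp [sz_one]
    | cons a s ih =>
      intro hs
      rw [Multiset.map_cons, Multiset.prod_cons, eval_mul, sz_mul]
      have h1 : sz (eval z (X - Polynomial.C a)) ≤ 0 := by
        simpa using hs a (Multiset.mem_cons_self a s)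
      exact add_nonpos h1 (ih (fun b hb => hs b (Multiset.mem_cons_of_mem hb)))
  rw [hfac, eval_mul, eval_C, sz_mul] at hg
  exact absurd hg (not_lt.mpr (add_nonpos hlc (key _ hcon)))

/-- A finite element of `K(i)` is infinitely close to an algebraic number. -/
theorem exists_algebraic_near [IsRealClosed K] {t : K} (ht : ArchimedeanClass.mk t < 0) {z : Cx K}
    (hz : 0 ≤ sz z) {P : ℚ[X][X]} (hP : P ≠ 0)
    (hPc : P.eval₂ (aeval (algebraMap K (Cx K) t) : ℚ[X] →ₐ[ℚ] Cx K).toRingHom z = 0) :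
    ∃ β : Cx K, IsAlgebraic ℚ β ∧ 0 < sz (z - β) := by
  classical
  obtain ⟨j0, hj0, hd⟩ := Finset.exists_mem_eq_sup P.support (Polynomial.support_nonempty.mpr hP)
    (fun j => (P.coeff j).natDegree)
  set d := P.support.sup (fun j => (P.coeff j).natDegree) with hddef
  set q : ℚ[X] := ∑ j ∈ P.support, Polynomial.C ((P.coeff j).coeff d) * X ^ j with hq
  have hqc : q.coeff j0 = (P.coeff j0).coeff d := by
    rw [hq, Polynomial.finsetSum_coeff, Finset.sum_eq_single j0]
    · simp
    · intro b _ hb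
      simp [Polynomial.coeff_X_pow, Ne.symm hb]
    · intro h; exact absurd hj0 h
  have hqne : q ≠ 0 := by
    intro h0
    rw [h0, Polynomial.coeff_zero, hd] at hqc
    exact (Polynomial.mem_support_iff.mp hj0) (Polynomial.leadingCoeff_eq_zero.mp hqc.symm)
  set T : Cx K := algebraMap K (Cx K) t with hT
  have ht0 : t ≠ 0 := by rintro rfl; simp at ht
  have hT0 : T ≠ 0 := by rw [hT]; simpa using ht0
  have hszT : sz T = ArchimedeanClass.mk t := sz_algebraMap t
  have hszTinv : 0 < sz T⁻¹ := by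
    have h1 : T⁻¹ = algebraMap K (Cx K) t⁻¹ := by rw [hT, map_inv₀]
    rw [h1, sz_algebraMap]
    exact mk_inv_pos ht
  have hszrat : ∀ a : ℚ, 0 ≤ sz (algebraMap ℚ (Cx K) a) := by
    intro a
    have : algebraMap ℚ (Cx K) a = algebraMap K (Cx K) (algebraMap ℚ K a) := by simp
    rw [this, sz_algebraMap]
    by_cases ha : a = 0
    · rw [ha, map_zero, ArchimedeanClass.mk_zero]; exact le_top
    · rw [mk_ratCast_of_ne ha]
  -- `t^{-d} f(t)` is infinitely close to the coefficient of degree `d`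
  have hnear : ∀ f : ℚ[X], f.natDegree ≤ d →
      0 < sz (algebraMap ℚ (Cx K) (f.coeff d) - aeval T f * (T⁻¹) ^ d) := by
    intro f hf
    have h1 : aeval T f = ∑ i ∈ Finset.range (d + 1), algebraMap ℚ (Cx K) (f.coeff i) * T ^ i := by
      rw [Polynomial.aeval_eq_sum_range' (Nat.lt_succ_of_le hf)]
      simp [Algebra.smul_def]
    have h2 : algebraMap ℚ (Cx K) (f.coeff d) - aeval T f * (T⁻¹) ^ d =
        ∑ i ∈ Finset.range d, -(algebraMap ℚ (Cx K) (f.coeff i) * (T⁻¹) ^ (d - i)) := by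
      rw [h1, Finset.sum_range_succ, add_mul, mul_assoc, ← mul_pow, mul_inv_cancel₀ hT0, one_pow,
        mul_one, Finset.sum_mul]
      rw [Finset.sum_neg_distrib]
      have h3 : ∀ i ∈ Finset.range d, algebraMap ℚ (Cx K) (f.coeff i) * T ^ i * (T⁻¹) ^ d =
          algebraMap ℚ (Cx K) (f.coeff i) * (T⁻¹) ^ (d - i) := by
        intro i hi
        have hi' := Finset.mem_range.mp hi
        have h4 : (T⁻¹) ^ d = (T⁻¹) ^ i * (T⁻¹) ^ (d - i) := by rw [← pow_add]; congr 1; omega
        rw [h4, mul_assoc, ← mul_assoc (T ^ i), ← mul_pow, mul_inv_cancel₀ hT0, one_pow, one_mul]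
      rw [Finset.sum_congr rfl h3]
      ring
    rw [h2]
    apply lt_sz_sum _ _ zero_ne_top
    intro i hi
    have hi' := Finset.mem_range.mp hi
    rw [sz_neg, sz_mul, sz_pow]
    exact lt_of_lt_of_le (nsmul_pos_of_pos hszTinv (by omega))
      (le_add_of_nonneg_left (hszrat _))
  have hqz : 0 < sz (aeval z q) := by
    have h1 : aeval z q = ∑ j ∈ P.support,
        (algebraMap ℚ (Cx K) ((P.coeff j).coeff d) - aeval T (P.coeff j) * (T⁻¹) ^ d) * z ^ j := by
      have h2 : ∑ j ∈ P.support, (aeval T (P.coeff j) * (T⁻¹) ^ d) * z ^ j = 0 := by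
        rw [Polynomial.eval₂_eq_sum, Polynomial.sum_def] at hPc
        have h3 : ∑ j ∈ P.support, (aeval T (P.coeff j) * (T⁻¹) ^ d) * z ^ j =
            (∑ j ∈ P.support, aeval T (P.coeff j) * z ^ j) * (T⁻¹) ^ d := by
          rw [Finset.sum_mul]
          apply Finset.sum_congr rfl
          intro j _; ring
        rw [h3]
        have h4 : ∑ j ∈ P.support, aeval T (P.coeff j) * z ^ j = 0 := hPc
        rw [h4, zero_mul]
      have h5 : aeval z q = ∑ j ∈ P.support, algebraMap ℚ (Cx K) ((P.coeff j).coeff d) * z ^ j := by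
        rw [hq, map_sum]
        apply Finset.sum_congr rfl
        intro j _
        simp
      rw [h5]
      have h6 : ∑ j ∈ P.support,
        (algebraMap ℚ (Cx K) ((P.coeff j).coeff d) - aeval T (P.coeff j) * (T⁻¹) ^ d) * z ^ j =
        ∑ j ∈ P.support, algebraMap ℚ (Cx K) ((P.coeff j).coeff d) * z ^ j -
        ∑ j ∈ P.support, (aeval T (P.coeff j) * (T⁻¹) ^ d) * z ^ j := by
        rw [← Finset.sum_sub_distrib]
        apply Finset.sum_congr rfl
        intro j _; ring
      rw [h6, h2, sub_zero]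
    rw [h1]
    apply lt_sz_sum _ _ zero_ne_top
    intro j hj
    rw [sz_mul, sz_pow]
    refine lt_of_lt_of_le (hnear _ ?_) (le_add_of_nonneg_right (nsmul_nonneg hz j))
    rw [hddef]
    exact Finset.le_sup (f := fun j => (P.coeff j).natDegree) hj
  obtain ⟨β, hβ, hβ'⟩ := exists_root_near z (q.map (algebraMap ℚ (Cx K))) (by
      rw [Polynomial.leadingCoeff_map]
      have : algebraMap ℚ (Cx K) q.leadingCoeff = algebraMap K (Cx K) (algebraMap ℚ K q.leadingCoeff) := by
        simp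
      rw [this, sz_algebraMap, mk_ratCast_of_ne (Polynomial.leadingCoeff_ne_zero.mpr hqne)])
    (by rw [Polynomial.eval_map]; exact hqz)
  refine ⟨β, ⟨q, hqne, ?_⟩, hβ'⟩
  have := Polynomial.isRoot_of_mem_roots hβ
  rw [Polynomial.IsRoot, Polynomial.eval_map] at this
  exact this

end Pool.Agent.RealClosed
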